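import Mathlib

/-!
Y570/KP (helper570, MP_0430e4_lc): pseudo-codes from kernels.
-/

set_option autoImplicit false

namespace Pool.Agent.Y570.KP

open Finset

section

variable {X : Type} [Fintype X] [DecidableEq X]

/-- the pseudo-mass of the codes which contain `D ∪ S` and avoid `E` -/
def cond (y : Finset X → ℝ) (D E S : Finset X) : ℝ :=
  ∑ F ∈ E.powerset, (-1) ^ F.card * y (D ∪ F ∪ S)

/-- a kernel close to the constant kernel -/
structure Good (G : X → X → ℝ) (K L : ℝ) : Prop where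
  symm : ∀ x y, G x y = G y x
  diag : ∀ x, G x x = 0
  nonneg : ∀ x y, 0 ≤ G x y
  le : ∀ x y, G x y ≤ K
  quad : ∀ a : X → ℝ, |∑ x, ∑ y, (G x y - 1) * a x * a y| ≤ L * ∑ x, a x ^ 2

/-- the product over the pairs -/
noncomputable def pr (G : X → X → ℝ) (S : Finset X) : ℝ := ∏ p ∈ S.offDiag, √(G p.1 p.2)

/-- the pseudo-mass -/
noncomputable def yy (ρ : ℝ) (G : X → X → ℝ) (S : Finset X) : ℝ := ρ ^ S.card * pr G S

/-- the conditional density -/
def vv (ρ : ℝ) (G : X → X → ℝ) (A : Finset X) (x : X) : ℝ := ρ * ∏ s ∈ A, G x s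

variable {G : X → X → ℝ} {K L ρ : ℝ}

lemma pr_insert (hG : Good G K L) {A : Finset X} {x : X} (hx : x ∉ A) :
    pr G (insert x A) = pr G A * ∏ s ∈ A, G x s := by
  classical
  unfold pr
  rw [Finset.offDiag_insert hx, Finset.prod_union, Finset.prod_union, mul_assoc]
  · congr 1
    rw [Finset.prod_product, Finset.prod_singleton, Finset.prod_product_right,
      Finset.prod_singleton, ← Finset.prod_mul_distrib]
    refine Finset.prod_congr rfl fun s _ => ?_
    rw [hG.symm s x]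
    exact Real.mul_self_sqrt (hG.nonneg x s)
  · rw [Finset.disjoint_left]
    rintro ⟨a, b⟩ h1 h2
    simp only [Finset.mem_offDiag, Finset.mem_product, Finset.mem_singleton] at h1 h2
    exact hx (h2.1 ▸ h1.1)
  · rw [Finset.disjoint_left]
    rintro ⟨a, b⟩ h1 h2
    simp only [Finset.mem_union, Finset.mem_offDiag, Finset.mem_product,
      Finset.mem_singleton] at h1 h2
    rcases h1 with h1 | h1
    · exact hx (h2.2 ▸ h1.2.1)
    · exact hx (h2.2 ▸ h1.2)

lemma yy_empty : yy ρ G ∅ = 1 := by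
  unfold yy pr
  simp

lemma yy_insert (hG : Good G K L) {A : Finset X} {x : X} (hx : x ∉ A) :
    yy ρ G (insert x A) = yy ρ G A * vv ρ G A x := by
  unfold yy vv
  rw [pr_insert hG hx, Finset.card_insert_of_notMem hx, pow_succ]
  ring

lemma vv_mem (hG : Good G K L) {A : Finset X} {x : X} (hx : x ∈ A) : vv ρ G A x = 0 := by
  unfold vv
  rw [Finset.prod_eq_zero hx (hG.diag x), mul_zero]

lemma vv_nonneg (hG : Good G K L) (hρ : 0 ≤ ρ) (A : Finset X) (x : X) : 0 ≤ vv ρ G A x :=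
  mul_nonneg hρ (Finset.prod_nonneg fun s _ => hG.nonneg x s)

lemma prod_le (hG : Good G K L) (hK : 1 ≤ K) (A : Finset X) (x : X) {k : ℕ} (hA : A.card ≤ k) :
    ∏ s ∈ A, G x s ≤ K ^ k := by
  calc ∏ s ∈ A, G x s ≤ ∏ _s ∈ A, K :=
        Finset.prod_le_prod (fun s _ => hG.nonneg x s) fun s _ => hG.le x s
    _ = K ^ A.card := by rw [Finset.prod_const]
    _ ≤ K ^ k := pow_le_pow_right₀ hK hA

lemma prod_nonneg' (hG : Good G K L) (A : Finset X) (x : X) : 0 ≤ ∏ s ∈ A, G x s :=
  Finset.prod_nonneg fun s _ => hG.nonneg x s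

lemma vv_le (hG : Good G K L) (hK : 1 ≤ K) (hρ : 0 ≤ ρ) (A : Finset X) (x : X) {k : ℕ}
    (hA : A.card ≤ k) : vv ρ G A x ≤ ρ * K ^ k :=
  mul_le_mul_of_nonneg_left (prod_le hG hK A x hA) hρ

lemma yy_nonneg (hρ : 0 ≤ ρ) (A : Finset X) : 0 ≤ yy ρ G A := by
  unfold yy pr
  exact mul_nonneg (pow_nonneg hρ _) (Finset.prod_nonneg fun _ _ => Real.sqrt_nonneg _)

/-- the factor of a row -/
def uu (ρ : ℝ) (G : X → X → ℝ) (A : Finset X) (x : X) : ℝ := (if x ∈ A then 1 else 0) + vv ρ G A x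

lemma yy_one (hG : Good G K L) (A : Finset X) (x : X) :
    yy ρ G (A ∪ {x}) = yy ρ G A * ((if x ∈ A then 1 else 0) + vv ρ G A x) := by
  by_cases hx : x ∈ A
  · rw [if_pos hx, vv_mem hG hx, add_zero, mul_one, Finset.union_eq_left.2 (by simpa using hx)]
  · rw [if_neg hx, zero_add, Finset.union_comm, ← Finset.insert_eq, yy_insert hG hx]

lemma yy_two (hG : Good G K L) (A : Finset X) (x z : X) :
    yy ρ G (A ∪ ({x} ∪ {z})) = yy ρ G A *
      ((if x ∈ A then 1 else 0) * (if z ∈ A then 1 else 0) +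
        (if x ∈ A then 1 else 0) * vv ρ G A z + (if z ∈ A then 1 else 0) * vv ρ G A x +
        (if x = z then vv ρ G A x else 0) + vv ρ G A x * vv ρ G A z * G x z) := by
  rw [← Finset.union_assoc]
  by_cases hx : x ∈ A
  · have h1 : A ∪ {x} = A := Finset.union_eq_left.2 (by simpa using hx)
    rw [h1, yy_one hG, if_pos hx, vv_mem hG hx]
    simp
  · by_cases hz : z ∈ A
    · have h2 : z ≠ x := fun h => hx (h ▸ hz)
      have h1 : A ∪ {x} ∪ {z} = A ∪ {x} := Finset.union_eq_left.2 (by simp [hz])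
      rw [h1, yy_one hG, if_pos hz, if_neg hx, vv_mem hG hz, if_neg (Ne.symm h2)]
      ring
    · by_cases hxz : x = z
      · subst hxz
        have h1 : A ∪ {x} ∪ {x} = A ∪ {x} := Finset.union_eq_left.2 (by simp)
        rw [h1, yy_one hG, if_neg hx, if_pos rfl, hG.diag]
        ring
      · have h3 : z ∉ insert x A := by
          simp only [Finset.mem_insert, not_or]
          exact ⟨Ne.symm hxz, hz⟩
        rw [Finset.union_comm A, ← Finset.insert_eq, Finset.union_comm, ← Finset.insert_eq,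
          yy_insert hG h3, yy_insert hG hx, if_neg hx, if_neg hz, if_neg hxz]
        unfold vv
        rw [Finset.prod_insert hx, hG.symm z x]
        ring

/-- the quadratic form of a set -/
noncomputable def QQ (ρ : ℝ) (G : X → X → ℝ) (A : Finset X) (a : Option X → ℝ) : ℝ :=
  ∑ s : Option X, ∑ t : Option X, a s * a t * yy ρ G (A ∪ (s.toFinset ∪ t.toFinset))

lemma QQ_eq (hG : Good G K L) (A : Finset X) (a : Option X → ℝ) :
    QQ ρ G A a = yy ρ G A * ((a none + ∑ x ∈ A, a (some x) + ∑ x, vv ρ G A x * a (some x)) ^ 2 +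
      ∑ x, vv ρ G A x * a (some x) ^ 2 +
      ∑ x, ∑ z, (G x z - 1) * (vv ρ G A x * a (some x)) * (vv ρ G A z * a (some z))) := by
  unfold QQ
  simp only [Fintype.sum_option, Option.toFinset_none, Option.toFinset_some,
    Finset.empty_union, Finset.union_empty, yy_one hG, yy_two hG]
  obtain ⟨y, hy⟩ : ∃ y : ℝ, y = yy ρ G A := ⟨_, rfl⟩
  rw [← hy]
  obtain ⟨v, hv⟩ : ∃ v : X → ℝ, v = vv ρ G A := ⟨_, rfl⟩
  rw [← hv]
  obtain ⟨i, hi⟩ : ∃ i : X → ℝ, i = fun x => if x ∈ A then (1 : ℝ) else 0 := ⟨_, rfl⟩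
  have hi' : ∀ x, (if x ∈ A then (1 : ℝ) else 0) = i x := fun x => by rw [hi]
  simp only [hi']
  have hA : ∑ x ∈ A, a (some x) = ∑ x, i x * a (some x) := by
    rw [hi]
    simp only [ite_mul, one_mul, zero_mul]
    rw [Finset.sum_ite_mem, Finset.univ_inter]
  rw [hA]
  obtain ⟨b, hb⟩ : ∃ b : X → ℝ, b = fun x => a (some x) := ⟨_, rfl⟩
  have hb' : ∀ x, a (some x) = b x := fun x => by rw [hb]
  simp only [hb']
  obtain ⟨c, hc⟩ : ∃ c : ℝ, c = a none := ⟨_, rfl⟩
  rw [← hc]
  have e1 : ∀ x, ∑ z, b x * b z * (y * (i x * i z + i x * v z + i z * v x +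
      (if x = z then v x else 0) + v x * v z * G x z)) =
      y * (i x * b x * ∑ z, i z * b z + i x * b x * ∑ z, v z * b z + v x * b x * ∑ z, i z * b z +
        v x * b x ^ 2 + ∑ z, G x z * (v x * b x) * (v z * b z)) := by
    intro x
    have e2 : v x * b x ^ 2 = ∑ z, if x = z then b x * b z * v x else 0 := by
      rw [Finset.sum_ite_eq, if_pos (Finset.mem_univ x)]
      ring
    rw [e2, Finset.mul_sum, Finset.mul_sum, Finset.mul_sum, ← Finset.sum_add_distrib,
      ← Finset.sum_add_distrib, ← Finset.sum_add_distrib, ← Finset.sum_add_distrib,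
      Finset.mul_sum]
    refine Finset.sum_congr rfl fun z _ => ?_
    split_ifs
    · ring
    · ring
  simp_rw [Finset.sum_add_distrib]
  rw [Finset.sum_congr rfl fun x _ => e1 x]
  have e3 : ∑ x, ∑ z, (G x z - 1) * (v x * b x) * (v z * b z) =
      ∑ x, ∑ z, G x z * (v x * b x) * (v z * b z) - (∑ x, v x * b x) ^ 2 := by
    rw [sq, Finset.sum_mul_sum, ← Finset.sum_sub_distrib]
    refine Finset.sum_congr rfl fun x _ => ?_
    rw [← Finset.sum_sub_distrib]
    refine Finset.sum_congr rfl fun z _ => ?_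
    ring
  rw [e3, ← Finset.mul_sum]
  simp only [Finset.sum_add_distrib]
  rw [← Finset.sum_mul, ← Finset.sum_mul, ← Finset.sum_mul]
  have e4 : ∑ x, c * b x * (y * (i x + v x)) = y * c * (∑ x, i x * b x) + y * c * ∑ x, v x * b x := by
    rw [Finset.mul_sum, Finset.mul_sum, ← Finset.sum_add_distrib]
    refine Finset.sum_congr rfl fun x _ => ?_
    ring
  have e5 : ∑ x, b x * c * (y * (i x + v x)) = y * c * (∑ x, i x * b x) + y * c * ∑ x, v x * b x := by
    rw [Finset.mul_sum, Finset.mul_sum, ← Finset.sum_add_distrib]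
    refine Finset.sum_congr rfl fun x _ => ?_
    ring
  rw [e4, e5]
  ring

end

end Pool.Agent.Y570.KP
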