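import Mathlib
import Pool.Agent.Y570.KP.Ansatz

/-!
Y570/KP (helper570, MP_0430e4_lc): the conditioned moment matrices of the product pseudo-mass are
positive semidefinite.
-/

set_option autoImplicit false
set_option linter.unusedSectionVars false

namespace Pool.Agent.Y570.KP

open Finset

section

variable {X : Type} [Fintype X] [DecidableEq X] {G : X → X → ℝ} {K L ρ : ℝ}

lemma sum_sq_le (hG : Good G K L) (hL : 0 < L) (z : X) : ∑ x, (G x z - 1) ^ 2 ≤ L ^ 2 := by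
  obtain ⟨c, hc⟩ : ∃ c : X → ℝ, c = fun x => G x z - 1 := ⟨_, rfl⟩
  obtain ⟨R, hR⟩ : ∃ R : ℝ, R = ∑ x, (G x z - 1) ^ 2 := ⟨_, rfl⟩
  obtain ⟨e, he⟩ : ∃ e : X → ℝ, e = fun x => if x = z then (1 : ℝ) else 0 := ⟨_, rfl⟩
  have hsum : ∀ u : X → ℝ, ∑ x, u x * e x = u z := by
    intro u
    rw [he]
    simp
  have key : ∀ t : ℝ, 2 * t * R ≤ L * (t ^ 2 * R + 1) := by
    intro t
    have h1 := (abs_le.1 (hG.quad fun x => t * c x + e x)).2
    have h2 := (abs_le.1 (hG.quad fun x => t * c x - e x)).1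
    have q1 : ∑ x, ∑ y, (G x y - 1) * (t * c x + e x) * (t * c y + e y) =
        t ^ 2 * ∑ x, ∑ y, (G x y - 1) * c x * c y + 2 * t * R + (G z z - 1) := by
      have e1 : ∀ x, ∑ y, (G x y - 1) * (t * c x + e x) * (t * c y + e y) =
          (t ^ 2 * ∑ y, (G x y - 1) * c x * c y) + (t * (∑ y, (G x y - 1) * c y)) * e x +
          (t * c x * (G x z - 1)) + (G x z - 1) * e x := by
        intro x
        have h3 := hsum fun y => t * c x * (G x y - 1)
        have h4 := hsum fun y => (G x y - 1) * e x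
        rw [← h3, ← h4, Finset.mul_sum, Finset.mul_sum, Finset.sum_mul, ← Finset.sum_add_distrib,
          ← Finset.sum_add_distrib, ← Finset.sum_add_distrib]
        refine Finset.sum_congr rfl fun y _ => ?_
        ring
      rw [Finset.sum_congr rfl fun x _ => e1 x, Finset.sum_add_distrib, Finset.sum_add_distrib,
        Finset.sum_add_distrib, ← Finset.mul_sum]
      rw [hsum fun x => t * ∑ y, (G x y - 1) * c y, hsum fun x => G x z - 1]
      have h5 : ∑ y, (G z y - 1) * c y = R := by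
        rw [hR, hc]
        refine Finset.sum_congr rfl fun y _ => ?_
        rw [hG.symm z y]
        ring
      have h6 : ∑ x, t * c x * (G x z - 1) = t * R := by
        rw [hR, hc, Finset.mul_sum]
        refine Finset.sum_congr rfl fun y _ => ?_
        ring
      rw [h5, h6]
      ring
    have q2 : ∑ x, ∑ y, (G x y - 1) * (t * c x - e x) * (t * c y - e y) =
        t ^ 2 * ∑ x, ∑ y, (G x y - 1) * c x * c y - 2 * t * R + (G z z - 1) := by
      have e1 : ∀ x, ∑ y, (G x y - 1) * (t * c x - e x) * (t * c y - e y) =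
          (t ^ 2 * ∑ y, (G x y - 1) * c x * c y) + (-t * (∑ y, (G x y - 1) * c y)) * e x +
          (-(t * c x * (G x z - 1))) + (G x z - 1) * e x := by
        intro x
        have h3 := hsum fun y => -(t * c x * (G x y - 1))
        have h4 := hsum fun y => (G x y - 1) * e x
        rw [← h3, ← h4, Finset.mul_sum, Finset.mul_sum, Finset.sum_mul, ← Finset.sum_add_distrib,
          ← Finset.sum_add_distrib, ← Finset.sum_add_distrib]
        refine Finset.sum_congr rfl fun y _ => ?_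
        ring
      rw [Finset.sum_congr rfl fun x _ => e1 x, Finset.sum_add_distrib, Finset.sum_add_distrib,
        Finset.sum_add_distrib, ← Finset.mul_sum]
      rw [hsum fun x => -t * ∑ y, (G x y - 1) * c y, hsum fun x => G x z - 1]
      have h5 : ∑ y, (G z y - 1) * c y = R := by
        rw [hR, hc]
        refine Finset.sum_congr rfl fun y _ => ?_
        rw [hG.symm z y]
        ring
      have h6 : ∑ x, -(t * c x * (G x z - 1)) = -(t * R) := by
        rw [hR, hc, Finset.mul_sum, ← Finset.sum_neg_distrib]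
        refine Finset.sum_congr rfl fun y _ => ?_
        ring
      rw [h5, h6]
      ring
    have n1 : ∑ x, (t * c x + e x) ^ 2 + ∑ x, (t * c x - e x) ^ 2 = 2 * (t ^ 2 * R + 1) := by
      have h7 : ∑ x, e x * e x = 1 := by
        rw [hsum e, he]
        simp
      have h8 : ∑ x, ((t * c x + e x) ^ 2 + (t * c x - e x) ^ 2) =
          ∑ x, (2 * t ^ 2 * (G x z - 1) ^ 2 + 2 * (e x * e x)) := by
        refine Finset.sum_congr rfl fun x _ => ?_
        rw [hc]
        ring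
      rw [← Finset.sum_add_distrib, h8, Finset.sum_add_distrib, ← Finset.mul_sum, ← Finset.mul_sum,
        h7, hR]
      ring
    rw [q1] at h1
    rw [q2] at h2
    have h9 : L * ∑ x, (t * c x + e x) ^ 2 + L * ∑ x, (t * c x - e x) ^ 2 =
        L * (2 * (t ^ 2 * R + 1)) := by
      rw [← mul_add, n1]
    linarith
  have h1 := key L⁻¹
  rw [← hR]
  have h2 : L * (L⁻¹ ^ 2 * R + 1) = L⁻¹ * R + L := by
    field_simp
  rw [h2] at h1
  have h3 : L⁻¹ * R ≤ L := by linarith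
  rw [inv_mul_le_iff₀ hL] at h3
  linarith

lemma abs_prod_sub (hG : Good G K L) (hK : 1 ≤ K) (F : Finset X) (x : X) :
    |∏ s ∈ F, G x s - 1| ≤ K ^ F.card * ∑ f ∈ F, |G x f - 1| := by
  induction F using Finset.induction_on with
  | empty => simp
  | insert f F hf ih =>
    rw [Finset.prod_insert hf, Finset.sum_insert hf, Finset.card_insert_of_notMem hf, pow_succ]
    have hK0 : 0 ≤ K := by linarith
    have h1 : G x f * ∏ s ∈ F, G x s - 1 = G x f * (∏ s ∈ F, G x s - 1) + (G x f - 1) := by ring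
    rw [h1]
    have hS : 0 ≤ ∑ f ∈ F, |G x f - 1| := Finset.sum_nonneg fun _ _ => abs_nonneg _
    have hp : 1 ≤ K ^ F.card * K := by
      rw [← pow_succ]
      exact one_le_pow₀ hK
    calc |G x f * (∏ s ∈ F, G x s - 1) + (G x f - 1)|
        ≤ |G x f * (∏ s ∈ F, G x s - 1)| + |G x f - 1| := abs_add_le _ _
      _ = G x f * |∏ s ∈ F, G x s - 1| + |G x f - 1| := by
          rw [abs_mul, abs_of_nonneg (hG.nonneg x f)]
      _ ≤ K * (K ^ F.card * ∑ f ∈ F, |G x f - 1|) + K ^ F.card * K * |G x f - 1| := by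
          refine add_le_add (mul_le_mul (hG.le x f) ih (abs_nonneg _) hK0) ?_
          exact le_mul_of_one_le_left (abs_nonneg _) hp
      _ = K ^ F.card * K * (|G x f - 1| + ∑ f ∈ F, |G x f - 1|) := by ring

lemma prod_sub_sq (hG : Good G K L) (hK : 1 ≤ K) (F : Finset X) (x : X) {k : ℕ}
    (hF : F.card ≤ k) :
    (∏ s ∈ F, G x s - 1) ^ 2 ≤ k * K ^ (2 * k) * ∑ f ∈ F, (G x f - 1) ^ 2 := by
  have h1 := abs_prod_sub hG hK F x
  have h2 : (∏ s ∈ F, G x s - 1) ^ 2 ≤ (K ^ F.card * ∑ f ∈ F, |G x f - 1|) ^ 2 := by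
    rw [← sq_abs]
    exact pow_le_pow_left₀ (abs_nonneg _) h1 2
  refine h2.trans ?_
  rw [mul_pow]
  have h3 : (∑ f ∈ F, |G x f - 1|) ^ 2 ≤ F.card * ∑ f ∈ F, |G x f - 1| ^ 2 :=
    sq_sum_le_card_mul_sum_sq
  have h4 : ∑ f ∈ F, |G x f - 1| ^ 2 = ∑ f ∈ F, (G x f - 1) ^ 2 :=
    Finset.sum_congr rfl fun f _ => sq_abs _
  rw [h4] at h3
  have h5 : (K ^ F.card) ^ 2 ≤ K ^ (2 * k) := by
    rw [← pow_mul, mul_comm F.card 2]
    exact pow_le_pow_right₀ hK (by omega)
  have hS : 0 ≤ ∑ f ∈ F, (G x f - 1) ^ 2 := Finset.sum_nonneg fun _ _ => sq_nonneg _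
  have h6 : (F.card : ℝ) ≤ k := by exact_mod_cast hF
  calc (K ^ F.card) ^ 2 * (∑ f ∈ F, |G x f - 1|) ^ 2
      ≤ K ^ (2 * k) * (k * ∑ f ∈ F, (G x f - 1) ^ 2) := by
        refine mul_le_mul h5 (h3.trans (mul_le_mul_of_nonneg_right h6 hS)) (sq_nonneg _) ?_
        exact pow_nonneg (by linarith) _
    _ = k * K ^ (2 * k) * ∑ f ∈ F, (G x f - 1) ^ 2 := by ring

/-- the form of the kernel, with weights -/
lemma quad_le (hG : Good G K L) (hL : 0 ≤ L) (u : X → ℝ) (M : ℝ) (hu0 : ∀ x, 0 ≤ u x)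
    (hu : ∀ x, u x ≤ M) (a : X → ℝ) :
    |∑ x, ∑ z, (G x z - 1) * (u x * a x) * (u z * a z)| ≤ L * M * ∑ x, u x * a x ^ 2 := by
  refine (hG.quad fun x => u x * a x).trans ?_
  rw [mul_assoc L M]
  refine mul_le_mul_of_nonneg_left ?_ hL
  rw [Finset.mul_sum]
  refine Finset.sum_le_sum fun x _ => ?_
  have h1 : (u x * a x) ^ 2 = u x * (u x * a x ^ 2) := by ring
  rw [h1]
  exact mul_le_mul_of_nonneg_right (hu x) (mul_nonneg (hu0 x) (sq_nonneg _))

/-- the lower bound of the main term -/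
lemma QQ_lower (hG : Good G K L) (hK : 1 ≤ K) (hL : 0 ≤ L) (hρ : 0 ≤ ρ) (D : Finset X) {k : ℕ}
    (hD : D.card ≤ k) (hs : L * (ρ * K ^ k) ≤ 1 / 2) (a : Option X → ℝ) :
    yy ρ G D * ((a none + ∑ x ∈ D, a (some x) + ∑ x, vv ρ G D x * a (some x)) ^ 2 +
      1 / 2 * ∑ x, vv ρ G D x * a (some x) ^ 2) ≤ QQ ρ G D a := by
  rw [QQ_eq hG]
  refine mul_le_mul_of_nonneg_left ?_ (yy_nonneg hρ D)
  have h1 := quad_le hG hL (vv ρ G D) (ρ * K ^ k) (vv_nonneg hG hρ D)
    (fun x => vv_le hG hK hρ D x hD) (fun x => a (some x))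
  have h2 := (abs_le.1 h1).1
  have h3 : 0 ≤ ∑ x, vv ρ G D x * a (some x) ^ 2 :=
    Finset.sum_nonneg fun x _ => mul_nonneg (vv_nonneg hG hρ D x) (sq_nonneg _)
  have h4 := mul_le_mul_of_nonneg_right hs h3
  linarith

lemma vv_union (ρ : ℝ) (G : X → X → ℝ) {D F : Finset X} (h : Disjoint D F) (x : X) :
    vv ρ G (D ∪ F) x = vv ρ G D x * ∏ s ∈ F, G x s := by
  unfold vv
  rw [Finset.prod_union h]
  ring

/-- the upper bound of the corrections -/
lemma QQ_upper (hG : Good G K L) (hK : 1 ≤ K) (hL : 0 < L) (hρ : 0 ≤ ρ) (D F : Finset X) {k : ℕ}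
    (hDF : Disjoint D F) (hD : D.card ≤ k) (hF : F.card ≤ k) (a : Option X → ℝ)
    (ha : ∀ x ∈ F, a (some x) = 0) :
    |QQ ρ G (D ∪ F) a| ≤ yy ρ G (D ∪ F) *
      (2 * (a none + ∑ x ∈ D, a (some x) + ∑ x, vv ρ G D x * a (some x)) ^ 2 +
      (2 * (ρ * K ^ (3 * k) * k ^ 2 * L ^ 2) + K ^ k + L * (ρ * K ^ (2 * k)) * K ^ k) *
        ∑ x, vv ρ G D x * a (some x) ^ 2) := by
  rw [QQ_eq hG, abs_mul, abs_of_nonneg (yy_nonneg hρ _)]
  refine mul_le_mul_of_nonneg_left ?_ (yy_nonneg hρ _)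
  have hK0 : 0 ≤ K := by linarith
  obtain ⟨v, hv⟩ : ∃ v : X → ℝ, v = vv ρ G D := ⟨_, rfl⟩
  obtain ⟨g, hg⟩ : ∃ g : X → ℝ, g = fun x => ∏ s ∈ F, G x s := ⟨_, rfl⟩
  have hvv : ∀ x, vv ρ G (D ∪ F) x = v x * g x := fun x => by rw [vv_union ρ G hDF, hv, hg]
  have hv0 : ∀ x, 0 ≤ v x := fun x => by rw [hv]; exact vv_nonneg hG hρ D x
  have hg0 : ∀ x, 0 ≤ g x := fun x => by rw [hg]; exact prod_nonneg' hG F x
  have hvle : ∀ x, v x ≤ ρ * K ^ k := fun x => by rw [hv]; exact vv_le hG hK hρ D x hD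
  have hgle : ∀ x, g x ≤ K ^ k := fun x => by rw [hg]; exact prod_le hG hK F x hF
  obtain ⟨b, hb⟩ : ∃ b : X → ℝ, b = fun x => a (some x) := ⟨_, rfl⟩
  have hsumDF : ∑ x ∈ D ∪ F, a (some x) = ∑ x ∈ D, a (some x) := by
    rw [Finset.sum_union hDF, Finset.sum_eq_zero ha, add_zero]
  rw [hsumDF]
  simp only [hvv]
  rw [← hv]
  obtain ⟨B, hB⟩ : ∃ B : ℝ, B = a none + ∑ x ∈ D, a (some x) + ∑ x, v x * a (some x) := ⟨_, rfl⟩
  obtain ⟨V, hV⟩ : ∃ V : ℝ, V = ∑ x, v x * a (some x) ^ 2 := ⟨_, rfl⟩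
  have hV0 : 0 ≤ V := by
    rw [hV]
    exact Finset.sum_nonneg fun x _ => mul_nonneg (hv0 x) (sq_nonneg _)
  obtain ⟨T, hT⟩ : ∃ T : ℝ, T = ∑ x, v x * (g x - 1) * a (some x) := ⟨_, rfl⟩
  have e1 : a none + ∑ x ∈ D, a (some x) + ∑ x, v x * g x * a (some x) = B + T := by
    rw [hB, hT, add_assoc (a none + _), ← Finset.sum_add_distrib]
    congr 1
    refine Finset.sum_congr rfl fun x _ => ?_
    ring
  rw [e1, ← hB, ← hV]
  -- the square of T
  have hT2 : T ^ 2 ≤ (ρ * K ^ (3 * k) * k ^ 2 * L ^ 2) * V := by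
    have c1 : T ^ 2 ≤ (∑ x, v x * (g x - 1) ^ 2) * V := by
      have c2 := Finset.sum_mul_sq_le_sq_mul_sq Finset.univ (fun x => √(v x) * (g x - 1))
        (fun x => √(v x) * a (some x))
      have c3 : ∑ x, √(v x) * (g x - 1) * (√(v x) * a (some x)) = T := by
        rw [hT]
        refine Finset.sum_congr rfl fun x _ => ?_
        have := Real.mul_self_sqrt (hv0 x)
        calc √(v x) * (g x - 1) * (√(v x) * a (some x)) =
            (√(v x) * √(v x)) * (g x - 1) * a (some x) := by ring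
          _ = _ := by rw [this]
      have c4 : ∑ x, (√(v x) * (g x - 1)) ^ 2 = ∑ x, v x * (g x - 1) ^ 2 := by
        refine Finset.sum_congr rfl fun x _ => ?_
        rw [mul_pow, Real.sq_sqrt (hv0 x)]
      have c5 : ∑ x, (√(v x) * a (some x)) ^ 2 = V := by
        rw [hV]
        refine Finset.sum_congr rfl fun x _ => ?_
        rw [mul_pow, Real.sq_sqrt (hv0 x)]
      rw [c3, c4, c5] at c2
      exact c2
    have c6 : ∑ x, v x * (g x - 1) ^ 2 ≤ ρ * K ^ (3 * k) * k ^ 2 * L ^ 2 := by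
      have c7 : ∀ x, v x * (g x - 1) ^ 2 ≤
          ρ * K ^ k * (k * K ^ (2 * k)) * ∑ f ∈ F, (G x f - 1) ^ 2 := by
        intro x
        have c8 := prod_sub_sq hG hK F x hF
        have c9 : (g x - 1) ^ 2 ≤ k * K ^ (2 * k) * ∑ f ∈ F, (G x f - 1) ^ 2 := by
          rw [hg]
          exact c8
        calc v x * (g x - 1) ^ 2 ≤ (ρ * K ^ k) * (k * K ^ (2 * k) * ∑ f ∈ F, (G x f - 1) ^ 2) :=
              mul_le_mul (hvle x) c9 (sq_nonneg _) (mul_nonneg hρ (pow_nonneg hK0 _))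
          _ = _ := by ring
      calc ∑ x, v x * (g x - 1) ^ 2
          ≤ ∑ x, ρ * K ^ k * (k * K ^ (2 * k)) * ∑ f ∈ F, (G x f - 1) ^ 2 :=
            Finset.sum_le_sum fun x _ => c7 x
        _ = ρ * K ^ k * (k * K ^ (2 * k)) * ∑ f ∈ F, ∑ x, (G x f - 1) ^ 2 := by
            rw [← Finset.mul_sum, Finset.sum_comm]
        _ ≤ ρ * K ^ k * (k * K ^ (2 * k)) * (k * L ^ 2) := by
            refine mul_le_mul_of_nonneg_left ?_ (by positivity)
            have hF' : (F.card : ℝ) ≤ k := by exact_mod_cast hF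
            calc ∑ f ∈ F, ∑ x, (G x f - 1) ^ 2 ≤ ∑ _f ∈ F, L ^ 2 :=
                  Finset.sum_le_sum fun f _ => sum_sq_le hG hL f
              _ = F.card * L ^ 2 := by rw [Finset.sum_const, nsmul_eq_mul]
              _ ≤ k * L ^ 2 := mul_le_mul_of_nonneg_right hF' (sq_nonneg _)
        _ = ρ * K ^ (3 * k) * k ^ 2 * L ^ 2 := by
            have : K ^ (3 * k) = K ^ k * K ^ (2 * k) := by
              rw [← pow_add]
              congr 1
              ring
            rw [this]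
            ring
    exact c1.trans (mul_le_mul_of_nonneg_right c6 hV0)
  have hS1 : ∑ x, v x * g x * a (some x) ^ 2 ≤ K ^ k * V := by
    rw [hV, Finset.mul_sum]
    refine Finset.sum_le_sum fun x _ => ?_
    have : v x * g x * a (some x) ^ 2 = g x * (v x * a (some x) ^ 2) := by ring
    rw [this]
    exact mul_le_mul_of_nonneg_right (hgle x) (mul_nonneg (hv0 x) (sq_nonneg _))
  have hS0 : 0 ≤ ∑ x, v x * g x * a (some x) ^ 2 :=
    Finset.sum_nonneg fun x _ => mul_nonneg (mul_nonneg (hv0 x) (hg0 x)) (sq_nonneg _)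
  have hq := quad_le hG hL.le (fun x => v x * g x) (ρ * K ^ (2 * k))
    (fun x => mul_nonneg (hv0 x) (hg0 x)) (fun x => by
      have : K ^ (2 * k) = K ^ k * K ^ k := by
        rw [← pow_add]
        congr 1
        ring
      rw [this, ← mul_assoc]
      exact mul_le_mul (hvle x) (hgle x) (hg0 x) (mul_nonneg hρ (pow_nonneg hK0 _)))
    (fun x => a (some x))
  have hq2 : L * (ρ * K ^ (2 * k)) * ∑ x, v x * g x * a (some x) ^ 2 ≤
      L * (ρ * K ^ (2 * k)) * (K ^ k * V) :=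
    mul_le_mul_of_nonneg_left hS1 (by positivity)
  have hBT : (B + T) ^ 2 ≤ 2 * B ^ 2 + 2 * T ^ 2 := by nlinarith [sq_nonneg (B - T)]
  rw [abs_le]
  have hq3 := abs_le.1 hq
  have hBT0 := sq_nonneg (B + T)
  have hT0 := sq_nonneg T
  have hB0 := sq_nonneg B
  have hp : 0 ≤ K ^ k * V := mul_nonneg (pow_nonneg hK0 _) hV0
  have hc0 : 0 ≤ (ρ * K ^ (3 * k) * k ^ 2 * L ^ 2) * V := hT0.trans hT2
  constructor
  · have := hq3.1
    nlinarith
  · have := hq3.2
    nlinarith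

end

end Pool.Agent.Y570.KP
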