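import Mathlib
import Pool.Agent.Y570.KP.Psd

/-!
Y570/KP (helper570, MP_0430e4_lc): the product pseudo-mass satisfies the constraints of the
`k`-point semidefinite program.
-/

set_option autoImplicit false
set_option linter.unusedSectionVars false

namespace Pool.Agent.Y570.KP

open Finset

section

variable {X : Type} [Fintype X] [DecidableEq X] {G : X → X → ℝ} {K L ρ : ℝ}

lemma cond_zero (y : Finset X → ℝ) {D E S : Finset X} {e : X} (he : e ∈ E) (h : e ∈ D ∪ S) :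
    cond y D E S = 0 := by
  unfold cond
  obtain ⟨E', hE', rfl⟩ : ∃ E', e ∉ E' ∧ insert e E' = E :=
    ⟨E.erase e, Finset.notMem_erase e E, Finset.insert_erase he⟩
  rw [Finset.sum_powerset_insert hE', ← Finset.sum_add_distrib]
  refine Finset.sum_eq_zero fun F hF => ?_
  have hF' : e ∉ F := fun h' => hE' (Finset.mem_powerset.1 hF h')
  have h1 : D ∪ insert e F ∪ S = D ∪ F ∪ S := by
    ext z
    simp only [Finset.mem_union, Finset.mem_insert] at h ⊢
    constructor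
    · rintro ((h2 | rfl | h2) | h2)
      · exact Or.inl (Or.inl h2)
      · rcases h with h | h
        · exact Or.inl (Or.inl h)
        · exact Or.inr h
      · exact Or.inl (Or.inr h2)
      · exact Or.inr h2
    · rintro ((h2 | h2) | h2)
      · exact Or.inl (Or.inl h2)
      · exact Or.inl (Or.inr (Or.inr h2))
      · exact Or.inr h2
  rw [h1, Finset.card_insert_of_notMem hF', pow_succ]
  ring

lemma yy_union_le (hG : Good G K L) (hK : 1 ≤ K) (hρ : 0 ≤ ρ) (D : Finset X) {k : ℕ}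
    (F : Finset X) (hDF : Disjoint D F) (h : D.card + F.card ≤ k) :
    yy ρ G (D ∪ F) ≤ yy ρ G D * (ρ * K ^ k) ^ F.card := by
  induction F using Finset.induction_on with
  | empty => simp
  | insert f F hf ih =>
    rw [Finset.card_insert_of_notMem hf] at h
    rw [Finset.disjoint_insert_right] at hDF
    have h1 := ih hDF.2 (by omega)
    have h2 : f ∉ D ∪ F := by
      rw [Finset.mem_union]
      exact fun h3 => h3.elim hDF.1 hf
    have h3 : D ∪ insert f F = insert f (D ∪ F) := by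
      ext z
      simp only [Finset.mem_union, Finset.mem_insert]
      tauto
    rw [h3, yy_insert hG h2, Finset.card_insert_of_notMem hf, pow_succ, ← mul_assoc]
    have h4 : (D ∪ F).card ≤ k := (Finset.card_union_le _ _).trans (by omega)
    exact mul_le_mul h1 (vv_le hG hK hρ _ f h4) (vv_nonneg hG hρ _ f)
      (mul_nonneg (yy_nonneg hρ D) (pow_nonneg (mul_nonneg hρ (pow_nonneg (by linarith) _)) _))

/-- the numerical consequences of the smallness of `ρ` -/
structure Small (K L ρ : ℝ) (k : ℕ) : Prop where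
  K1 : 1 ≤ K
  L1 : 1 ≤ L
  ρ0 : 0 < ρ
  small : 2 ^ (k + 4) * (k ^ 2 + 1) * K ^ (4 * k) * (ρ * L) ≤ 1

lemma Small.aux {k : ℕ} (h : Small K L ρ k) :
    16 * (2 ^ k * K ^ (4 * k) * (ρ * L)) ≤ 1 ∧ 16 * (k ^ 2 * (2 ^ k * K ^ (4 * k) * (ρ * L))) ≤ 1 ∧
      ρ * L ≤ 1 ∧ ρ ≤ ρ * L ∧ ρ ≤ 1 := by
  have hK0 : 0 < K := by linarith [h.K1]
  have hL0 : 0 < L := by linarith [h.L1]
  have hρ := h.ρ0
  have hM : 0 < 2 ^ k * K ^ (4 * k) * (ρ * L) := by positivity
  have h1 : 2 ^ (k + 4) * (k ^ 2 + 1) * K ^ (4 * k) * (ρ * L) =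
      16 * (k ^ 2 * (2 ^ k * K ^ (4 * k) * (ρ * L))) + 16 * (2 ^ k * K ^ (4 * k) * (ρ * L)) := by
    rw [pow_add]
    ring
  have h2 := h.small
  rw [h1] at h2
  have h3 : 0 ≤ (k : ℝ) ^ 2 * (2 ^ k * K ^ (4 * k) * (ρ * L)) := by positivity
  have h4 : ρ * L ≤ 2 ^ k * K ^ (4 * k) * (ρ * L) := by
    have h5 : (1 : ℝ) ≤ 2 ^ k * K ^ (4 * k) :=
      one_le_mul_of_one_le_of_one_le (one_le_pow₀ (by norm_num)) (one_le_pow₀ h.K1)
    exact le_mul_of_one_le_left (by positivity) h5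
  have h6 : ρ ≤ ρ * L := le_mul_of_one_le_right hρ.le h.L1
  refine ⟨by linarith, by linarith, by linarith, h6, by linarith⟩

lemma pow_le_four {k a : ℕ} (hK : 1 ≤ K) (ha : a ≤ 4 * k) : K ^ a ≤ K ^ (4 * k) :=
  pow_le_pow_right₀ hK ha

theorem nonneg_all {k : ℕ} (hG : Good G K L) (hS : Small K L ρ k) (D E : Finset X)
    (h : D.card + E.card ≤ k) : 0 ≤ cond (yy ρ G) D E ∅ := by
  by_cases hDE : Disjoint D E
  swap
  · obtain ⟨e, he⟩ := Finset.not_disjoint_iff.1 hDE
    rw [cond_zero _ he.2 (Finset.mem_union_left _ he.1)]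
  obtain ⟨h1, h2, h3, h4, h5⟩ := hS.aux
  have hK := hS.K1
  have hρ := hS.ρ0
  have hK0 : 0 < K := by linarith [hS.K1]
  have hL0 : 0 < L := by linarith [hS.L1]
  unfold cond
  rw [← Finset.add_sum_erase _ _ (Finset.empty_mem_powerset E)]
  simp only [Finset.card_empty, pow_zero, one_mul, Finset.union_empty]
  have hy := yy_nonneg hρ.le (G := G) D
  have hb : 2 ^ k * (ρ * K ^ k) ≤ 1 := by
    have e1 : K ^ k ≤ K ^ (4 * k) := pow_le_four hK (by omega)
    calc 2 ^ k * (ρ * K ^ k) ≤ 2 ^ k * ((ρ * L) * K ^ (4 * k)) := by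
          refine mul_le_mul_of_nonneg_left (mul_le_mul h4 e1 (by positivity) (by positivity))
            (by positivity)
      _ = 2 ^ k * K ^ (4 * k) * (ρ * L) := by ring
      _ ≤ 1 := by
          have : 0 < 2 ^ k * K ^ (4 * k) * (ρ * L) := by positivity
          linarith
  have hb1 : ρ * K ^ k ≤ 1 := by
    have : ρ * K ^ k ≤ 2 ^ k * (ρ * K ^ k) :=
      le_mul_of_one_le_left (by positivity) (one_le_pow₀ (by norm_num))
    linarith
  have h6 : ∀ F ∈ E.powerset.erase ∅, -(yy ρ G D * (ρ * K ^ k)) ≤ (-1) ^ F.card * yy ρ G (D ∪ F) := by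
    intro F hF
    rw [Finset.mem_erase, Finset.mem_powerset] at hF
    have hd : Disjoint D F := Finset.disjoint_of_subset_right hF.2 hDE
    have hcF : F.card ≤ E.card := Finset.card_le_card hF.2
    have h7 := yy_union_le hG hK hρ.le D F hd (k := k) (by omega)
    have h8 : (ρ * K ^ k) ^ F.card ≤ ρ * K ^ k := by
      have h9 : 1 ≤ F.card := Finset.card_pos.2 (Finset.nonempty_iff_ne_empty.2 hF.1)
      calc (ρ * K ^ k) ^ F.card ≤ (ρ * K ^ k) ^ 1 :=
            pow_le_pow_of_le_one (by positivity) hb1 h9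
        _ = ρ * K ^ k := pow_one _
    have h10 : yy ρ G (D ∪ F) ≤ yy ρ G D * (ρ * K ^ k) :=
      h7.trans (mul_le_mul_of_nonneg_left h8 hy)
    have h11 : |(-1 : ℝ) ^ F.card * yy ρ G (D ∪ F)| = yy ρ G (D ∪ F) := by
      rw [abs_mul, abs_pow, abs_neg, abs_one, one_pow, one_mul, abs_of_nonneg (yy_nonneg hρ.le _)]
    have h12 := neg_abs_le ((-1 : ℝ) ^ F.card * yy ρ G (D ∪ F))
    linarith
  have h13 := Finset.card_nsmul_le_sum _ _ _ h6
  rw [nsmul_eq_mul] at h13
  have h14 : ((E.powerset.erase ∅).card : ℝ) ≤ 2 ^ k := by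
    have e1 : (E.powerset.erase ∅).card ≤ 2 ^ E.card := by
      rw [← Finset.card_powerset]
      exact Finset.card_erase_le
    have e2 : 2 ^ E.card ≤ 2 ^ k := Nat.pow_le_pow_right (by norm_num) (by omega)
    exact_mod_cast e1.trans e2
  have h15 : ((E.powerset.erase ∅).card : ℝ) * (yy ρ G D * (ρ * K ^ k)) ≤
      2 ^ k * (yy ρ G D * (ρ * K ^ k)) := mul_le_mul_of_nonneg_right h14 (by positivity)
  have h16 : 2 ^ k * (yy ρ G D * (ρ * K ^ k)) ≤ yy ρ G D := by
    calc 2 ^ k * (yy ρ G D * (ρ * K ^ k)) = 2 ^ k * (ρ * K ^ k) * yy ρ G D := by ring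
      _ ≤ 1 * yy ρ G D := mul_le_mul_of_nonneg_right hb hy
      _ = _ := one_mul _
  linarith

theorem psd_all {k : ℕ} (hG : Good G K L) (hS : Small K L ρ k) (D E : Finset X)
    (h : D.card + E.card ≤ k) (a : Option X → ℝ) :
    0 ≤ ∑ s : Option X, ∑ t : Option X,
      a s * a t * cond (yy ρ G) D E (s.toFinset ∪ t.toFinset) := by
  by_cases hDE : Disjoint D E
  swap
  · obtain ⟨e, he⟩ := Finset.not_disjoint_iff.1 hDE
    refine le_of_eq (Eq.symm ?_)
    refine Finset.sum_eq_zero fun s _ => Finset.sum_eq_zero fun t _ => ?_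
    rw [cond_zero _ he.2 (Finset.mem_union_left _ he.1), mul_zero]
  obtain ⟨h1, h2, h3, h4, h5⟩ := hS.aux
  have hK := hS.K1
  have hρ := hS.ρ0
  have hK0 : 0 < K := by linarith [hS.K1]
  have hL0 : 0 < L := by linarith [hS.L1]
  -- remove the rows of `E`
  obtain ⟨b, hb⟩ : ∃ b : Option X → ℝ, b = fun s => if s.toFinset ⊆ E ∧ s.isSome then 0 else a s :=
    ⟨_, rfl⟩
  have hbE : ∀ x ∈ E, b (some x) = 0 := by
    intro x hx
    rw [hb]
    simp [hx]
  have hab : ∀ s : Option X, (∀ e ∈ E, e ∉ s.toFinset) → a s = b s := by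
    intro s hs
    rw [hb]
    rcases s with - | x
    · simp
    · have : x ∉ E := fun hx => hs x hx (by simp)
      simp [this]
  have hrep : ∑ s : Option X, ∑ t : Option X,
      a s * a t * cond (yy ρ G) D E (s.toFinset ∪ t.toFinset) =
      ∑ s : Option X, ∑ t : Option X,
        b s * b t * cond (yy ρ G) D E (s.toFinset ∪ t.toFinset) := by
    refine Finset.sum_congr rfl fun s _ => Finset.sum_congr rfl fun t _ => ?_
    by_cases hc : ∃ e ∈ E, e ∈ s.toFinset ∪ t.toFinset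
    · obtain ⟨e, he1, he2⟩ := hc
      rw [cond_zero _ he1 (Finset.mem_union_right _ he2), mul_zero, mul_zero]
    · push Not at hc
      rw [hab s fun e he h' => hc e he (Finset.mem_union_left _ h'),
        hab t fun e he h' => hc e he (Finset.mem_union_right _ h')]
  rw [hrep]
  -- the alternating sum of the forms
  have halt : ∑ s : Option X, ∑ t : Option X,
      b s * b t * cond (yy ρ G) D E (s.toFinset ∪ t.toFinset) =
      ∑ F ∈ E.powerset, (-1) ^ F.card * QQ ρ G (D ∪ F) b := by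
    unfold cond QQ
    simp_rw [Finset.mul_sum]
    rw [Finset.sum_comm' (s := E.powerset) (t := fun _ => (Finset.univ : Finset (Option X)))
      (t' := (Finset.univ : Finset (Option X))) (s' := fun _ => E.powerset) (by simp)]
    refine Finset.sum_congr rfl fun s _ => ?_
    rw [Finset.sum_comm' (s := E.powerset) (t := fun _ => (Finset.univ : Finset (Option X)))
      (t' := (Finset.univ : Finset (Option X))) (s' := fun _ => E.powerset) (by simp)]
    refine Finset.sum_congr rfl fun t _ => Finset.sum_congr rfl fun F _ => ?_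
    ring
  rw [halt, ← Finset.add_sum_erase _ _ (Finset.empty_mem_powerset E)]
  simp only [Finset.card_empty, pow_zero, one_mul, Finset.union_empty]
  have hy := yy_nonneg hρ.le (G := G) D
  obtain ⟨θ, hθ⟩ : ∃ θ : ℝ, θ = ρ * L := ⟨_, rfl⟩
  have hθ0 : 0 < θ := by rw [hθ]; positivity
  obtain ⟨M, hM⟩ : ∃ M : ℝ, M = 2 ^ k * K ^ (4 * k) * (ρ * L) := ⟨_, rfl⟩
  have hM0 : 0 < M := by rw [hM]; positivity
  rw [← hM] at h1 h2
  rw [← hθ] at h3 h4
  have p1 : (1 : ℝ) ≤ 2 ^ k := one_le_pow₀ (by norm_num)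
  have pK : (1 : ℝ) ≤ K ^ (4 * k) := one_le_pow₀ hK
  have hMθ : M = 2 ^ k * (K ^ (4 * k) * θ) := by rw [hM, hθ]; ring
  have q1 : K ^ (4 * k) * θ ≤ M := by
    rw [hMθ]
    exact le_mul_of_one_le_left (by positivity) p1
  -- the main term
  have hs : L * (ρ * K ^ k) ≤ 1 / 2 := by
    have e1 : L * (ρ * K ^ k) = K ^ k * θ := by rw [hθ]; ring
    have e2 : K ^ k * θ ≤ K ^ (4 * k) * θ :=
      mul_le_mul_of_nonneg_right (pow_le_four hK (by omega)) hθ0.le
    rw [e1]
    linarith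
  have hmain := QQ_lower hG hK hL0.le hρ.le D (k := k) (by omega) hs b
  obtain ⟨B2, hB2⟩ : ∃ B2 : ℝ, B2 = (b none + ∑ x ∈ D, b (some x) +
    ∑ x, vv ρ G D x * b (some x)) ^ 2 := ⟨_, rfl⟩
  obtain ⟨V, hV⟩ : ∃ V : ℝ, V = ∑ x, vv ρ G D x * b (some x) ^ 2 := ⟨_, rfl⟩
  have hB20 : 0 ≤ B2 := by rw [hB2]; exact sq_nonneg _
  have hV0 : 0 ≤ V := by
    rw [hV]
    exact Finset.sum_nonneg fun x _ => mul_nonneg (vv_nonneg hG hρ.le D x) (sq_nonneg _)
  rw [← hB2, ← hV] at hmain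
  obtain ⟨C, hC⟩ : ∃ C : ℝ, C = 2 * (ρ * K ^ (3 * k) * k ^ 2 * L ^ 2) + K ^ k +
    L * (ρ * K ^ (2 * k)) * K ^ k := ⟨_, rfl⟩
  have hC0 : 0 ≤ C := by rw [hC]; positivity
  have hbK : ρ * K ^ k ≤ 1 := by
    have e1 : ρ * K ^ k ≤ θ * K ^ (4 * k) :=
      mul_le_mul h4 (pow_le_four hK (by omega)) (by positivity) hθ0.le
    have e2 : θ * K ^ (4 * k) = K ^ (4 * k) * θ := mul_comm _ _
    linarith
  have hcor : ∀ F ∈ E.powerset.erase ∅, -(yy ρ G D * (ρ * K ^ k) * (2 * B2 + C * V)) ≤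
      (-1) ^ F.card * QQ ρ G (D ∪ F) b := by
    intro F hF
    rw [Finset.mem_erase, Finset.mem_powerset] at hF
    have hd : Disjoint D F := Finset.disjoint_of_subset_right hF.2 hDE
    have hcF : F.card ≤ E.card := Finset.card_le_card hF.2
    have h7 := yy_union_le hG hK hρ.le D F hd (k := k) (by omega)
    have h8 : (ρ * K ^ k) ^ F.card ≤ ρ * K ^ k := by
      have h9 : 1 ≤ F.card := Finset.card_pos.2 (Finset.nonempty_iff_ne_empty.2 hF.1)
      calc (ρ * K ^ k) ^ F.card ≤ (ρ * K ^ k) ^ 1 :=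
            pow_le_pow_of_le_one (by positivity) hbK h9
        _ = ρ * K ^ k := pow_one _
    have h10 : yy ρ G (D ∪ F) ≤ yy ρ G D * (ρ * K ^ k) :=
      h7.trans (mul_le_mul_of_nonneg_left h8 hy)
    have h11 := QQ_upper hG hK hL0 hρ.le D F hd (k := k) (by omega) (by omega) b
      (fun x hx => hbE x (hF.2 hx))
    rw [← hB2, ← hV, ← hC] at h11
    have h12 : |(-1 : ℝ) ^ F.card * QQ ρ G (D ∪ F) b| = |QQ ρ G (D ∪ F) b| := by
      rw [abs_mul, abs_pow, abs_neg, abs_one, one_pow, one_mul]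
    have h13 := neg_abs_le ((-1 : ℝ) ^ F.card * QQ ρ G (D ∪ F) b)
    have h14 : yy ρ G (D ∪ F) * (2 * B2 + C * V) ≤
        yy ρ G D * (ρ * K ^ k) * (2 * B2 + C * V) :=
      mul_le_mul_of_nonneg_right h10 (by positivity)
    linarith
  have h13 := Finset.card_nsmul_le_sum _ _ _ hcor
  rw [nsmul_eq_mul] at h13
  have h14 : ((E.powerset.erase ∅).card : ℝ) ≤ 2 ^ k := by
    have e1 : (E.powerset.erase ∅).card ≤ 2 ^ E.card := by
      rw [← Finset.card_powerset]
      exact Finset.card_erase_le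
    have e2 : 2 ^ E.card ≤ 2 ^ k := Nat.pow_le_pow_right (by norm_num) (by omega)
    exact_mod_cast e1.trans e2
  have h15 : ((E.powerset.erase ∅).card : ℝ) * (yy ρ G D * (ρ * K ^ k) * (2 * B2 + C * V)) ≤
      2 ^ k * (yy ρ G D * (ρ * K ^ k) * (2 * B2 + C * V)) :=
    mul_le_mul_of_nonneg_right h14 (by positivity)
  -- the constants
  have c1 : 2 ^ k * (ρ * K ^ k) * 2 ≤ 1 := by
    have e1 : ρ * K ^ k ≤ θ * K ^ (4 * k) :=
      mul_le_mul h4 (pow_le_four hK (by omega)) (by positivity) hθ0.le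
    have e2 : 2 ^ k * (ρ * K ^ k) ≤ 2 ^ k * (θ * K ^ (4 * k)) :=
      mul_le_mul_of_nonneg_left e1 (by positivity)
    have e3 : 2 ^ k * (θ * K ^ (4 * k)) = M := by rw [hMθ]; ring
    linarith
  have c2 : 2 ^ k * (ρ * K ^ k) * C ≤ 1 / 2 := by
    have e1 : 2 ^ k * (ρ * K ^ k) * (2 * (ρ * K ^ (3 * k) * k ^ 2 * L ^ 2)) =
        2 * (k ^ 2 * M) * θ := by
      have : K ^ (4 * k) = K ^ k * K ^ (3 * k) := by
        rw [← pow_add]
        congr 1
        ring
      rw [hMθ, hθ, this]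
      ring
    have e2 : 2 ^ k * (ρ * K ^ k) * K ^ k ≤ M := by
      have g1 : K ^ k * K ^ k ≤ K ^ (4 * k) := by
        rw [← pow_add]
        exact pow_le_four hK (by omega)
      have g2 : ρ * (K ^ k * K ^ k) ≤ θ * K ^ (4 * k) := mul_le_mul h4 g1 (by positivity) hθ0.le
      calc 2 ^ k * (ρ * K ^ k) * K ^ k = 2 ^ k * (ρ * (K ^ k * K ^ k)) := by ring
        _ ≤ 2 ^ k * (θ * K ^ (4 * k)) := mul_le_mul_of_nonneg_left g2 (by positivity)
        _ = M := by rw [hMθ]; ring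
    have e3 : 2 ^ k * (ρ * K ^ k) * (L * (ρ * K ^ (2 * k)) * K ^ k) = M * ρ := by
      have : K ^ (4 * k) = K ^ k * K ^ (2 * k) * K ^ k := by
        rw [← pow_add, ← pow_add]
        congr 1
        ring
      rw [hMθ, hθ, this]
      ring
    have e4 : 2 * (k ^ 2 * M) * θ ≤ 2 * (k ^ 2 * M) * 1 :=
      mul_le_mul_of_nonneg_left h3 (by positivity)
    have e5 : M * ρ ≤ M * 1 := mul_le_mul_of_nonneg_left h5 hM0.le
    rw [hC, mul_add, mul_add, e1, e3]
    linarith
  have h16 : 2 ^ k * (yy ρ G D * (ρ * K ^ k) * (2 * B2 + C * V)) ≤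
      yy ρ G D * (B2 + 1 / 2 * V) := by
    have e1 : 2 ^ k * (yy ρ G D * (ρ * K ^ k) * (2 * B2 + C * V)) =
        yy ρ G D * ((2 ^ k * (ρ * K ^ k) * 2) * B2 + (2 ^ k * (ρ * K ^ k) * C) * V) := by ring
    rw [e1]
    refine mul_le_mul_of_nonneg_left ?_ hy
    have e2 := mul_le_mul_of_nonneg_right c1 hB20
    have e3 := mul_le_mul_of_nonneg_right c2 hV0
    linarith
  linarith

end

end Pool.Agent.Y570.KP
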