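import Mathlib
import Pool.Agent.TH41.BL.Stm3
import Pool.Agent.TH41.BL.Stm4
import Pool.Agent.TH41.BL.MA4

/-!
Y570/KP (helper570, MP_0430e4_lc): a two-sided version of the primal inequality for Delsarte's
linear program.
-/

set_option autoImplicit false

open MeasureTheory Filter Topology

namespace Pool.Agent.Y570.KP

open Pool.Agent.TH41.BL

/-- the inequality -/
def StarAt (n d : ℕ) (K L : ℝ) : Prop :=
  ∀ l : ℕ → ℝ, 2 ^ n * l 0 ≤
    K * ∑ w ∈ (Finset.range (n + 1)).filter (fun w => d ≤ w),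
      (n.choose w : ℝ) * max (∑ i ∈ Finset.range (n + 1), l i * (kr n i w : ℝ)) 0 +
    L * ∑ j ∈ Finset.range (n + 1), (n.choose j : ℝ) * |l j|

/-- the comparison of the sums -/
lemma compare3 (m : ℕ) (C v f : ℕ → ℝ) (A B x V : ℝ) (hC : ∀ w, 0 ≤ C w) (hAB : A < B)
    (hV : 0 ≤ V)
    (h1 : ∀ w ∈ Finset.range m, (w : ℝ) ≤ A → |1 - v w| ≤ x)
    (h2 : ∀ w ∈ Finset.range m, A ≤ (w : ℝ) → v w ≤ 1 + x)
    (h3 : ∀ w ∈ Finset.range m, B ≤ (w : ℝ) → v w ≤ 5 / 6)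
    (h4 : ∀ w ∈ Finset.range m, -V ≤ v w) (hx : 0 ≤ x) :
    ∑ w ∈ Finset.range m, C w * (1 - v w) * f w ≤
      x * ∑ w ∈ (Finset.range m).filter (fun w : ℕ => (w : ℝ) < B), C w * |f w| -
        1 / 6 * ∑ w ∈ (Finset.range m).filter (fun w : ℕ => B ≤ (w : ℝ)), C w * |f w| +
        (2 + V) * ∑ w ∈ (Finset.range m).filter (fun w : ℕ => A < (w : ℝ)), C w * max (f w) 0 := by
  classical
  rw [Finset.sum_filter, Finset.sum_filter, Finset.sum_filter, Finset.mul_sum, Finset.mul_sum,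
    Finset.mul_sum, ← Finset.sum_sub_distrib, ← Finset.sum_add_distrib]
  refine Finset.sum_le_sum fun w hw => ?_
  have hCw := hC w
  have hab := abs_nonneg (f w)
  have hCf : 0 ≤ C w * |f w| := mul_nonneg hCw hab
  have hv4 := h4 w hw
  rcases le_or_gt B (w : ℝ) with hb | hb
  · rw [if_neg (not_lt.2 hb), if_pos hb, if_pos (lt_of_lt_of_le hAB hb)]
    have hv := h3 w hw hb
    rcases le_total (f w) 0 with hf | hf
    · rw [abs_of_nonpos hf, max_eq_right hf]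
      have e1 : 0 ≤ (1 - v w - 1 / 6) * (C w * (-f w)) :=
        mul_nonneg (by linarith) (mul_nonneg hCw (by linarith))
      nlinarith
    · rw [abs_of_nonneg hf, max_eq_left hf]
      have e1 : 0 ≤ (V + v w) * (C w * f w) :=
        mul_nonneg (by linarith) (mul_nonneg hCw hf)
      have e2 : 0 ≤ C w * f w := mul_nonneg hCw hf
      nlinarith
  · rw [if_pos hb, if_neg (not_le.2 hb)]
    rcases lt_or_ge A (w : ℝ) with hb2 | hb2
    · rw [if_pos hb2]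
      have hv := h2 w hw hb2.le
      rcases le_total (f w) 0 with hf | hf
      · rw [abs_of_nonpos hf, max_eq_right hf]
        have e1 : 0 ≤ (1 - v w + x) * (C w * (-f w)) :=
          mul_nonneg (by linarith) (mul_nonneg hCw (by linarith))
        nlinarith
      · rw [abs_of_nonneg hf, max_eq_left hf]
        have e1 : 0 ≤ (V + v w) * (C w * f w) :=
          mul_nonneg (by linarith) (mul_nonneg hCw hf)
        have e2 : 0 ≤ C w * f w := mul_nonneg hCw hf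
        have e3 : 0 ≤ x * (C w * f w) := mul_nonneg hx e2
        nlinarith
    · rw [if_neg (not_lt.2 hb2)]
      have hv := h1 w hw hb2
      have e1 : C w * (1 - v w) * f w ≤ |C w * (1 - v w) * f w| := le_abs_self _
      rw [abs_mul, abs_mul, abs_of_nonneg hCw] at e1
      have e2 : |1 - v w| * (C w * |f w|) ≤ x * (C w * |f w|) :=
        mul_le_mul_of_nonneg_right hv hCf
      nlinarith

/-- the comparison of the sums -/
lemma compare4 (m : ℕ) (C v f : ℕ → ℝ) (bbw : ℕ → ℝ) (η Δ x V : ℝ) (hC : ∀ w, 0 ≤ C w)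
    (hΔ : 0 < Δ) (hx : 0 ≤ x) (hV : 0 ≤ V)
    (h1 : ∀ w ∈ Finset.range m, η + Δ ≤ bbw w → |1 - v w| ≤ x)
    (h2 : ∀ w ∈ Finset.range m, bbw w ≤ η + Δ → v w ≤ 1 + x)
    (h3 : ∀ w ∈ Finset.range m, bbw w ≤ η → v w ≤ 7 / 8)
    (h4 : ∀ w ∈ Finset.range m, -V ≤ v w) :
    ∑ w ∈ Finset.range m, C w * (1 - v w) * f w ≤
      x * ∑ w ∈ (Finset.range m).filter (fun w => η ≤ bbw w), C w * |f w| -
        1 / 8 * ∑ w ∈ (Finset.range m).filter (fun w => bbw w < η), C w * |f w| +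
        (2 + V) * ∑ w ∈ (Finset.range m).filter (fun w => bbw w < η + Δ), C w * max (f w) 0 := by
  classical
  rw [Finset.sum_filter, Finset.sum_filter, Finset.sum_filter, Finset.mul_sum, Finset.mul_sum,
    Finset.mul_sum, ← Finset.sum_sub_distrib, ← Finset.sum_add_distrib]
  refine Finset.sum_le_sum fun w hw => ?_
  have hCw := hC w
  have hab := abs_nonneg (f w)
  have hCf : 0 ≤ C w * |f w| := mul_nonneg hCw hab
  have hv4 := h4 w hw
  rcases lt_or_ge (bbw w) η with hb | hb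
  · rw [if_neg (not_le.2 hb), if_pos hb, if_pos (by linarith)]
    have hv := h3 w hw hb.le
    rcases le_total (f w) 0 with hf | hf
    · rw [abs_of_nonpos hf, max_eq_right hf]
      have e1 : 0 ≤ (1 - v w - 1 / 8) * (C w * (-f w)) :=
        mul_nonneg (by linarith) (mul_nonneg hCw (by linarith))
      nlinarith
    · rw [abs_of_nonneg hf, max_eq_left hf]
      have e1 : 0 ≤ (V + v w) * (C w * f w) :=
        mul_nonneg (by linarith) (mul_nonneg hCw hf)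
      have e2 : 0 ≤ C w * f w := mul_nonneg hCw hf
      nlinarith
  · rw [if_pos hb, if_neg (not_lt.2 hb)]
    rcases lt_or_ge (bbw w) (η + Δ) with hb2 | hb2
    · rw [if_pos hb2]
      have hv := h2 w hw hb2.le
      rcases le_total (f w) 0 with hf | hf
      · rw [abs_of_nonpos hf, max_eq_right hf]
        have e1 : 0 ≤ (1 - v w + x) * (C w * (-f w)) :=
          mul_nonneg (by linarith) (mul_nonneg hCw (by linarith))
        nlinarith
      · rw [abs_of_nonneg hf, max_eq_left hf]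
        have e1 : 0 ≤ (V + v w) * (C w * f w) :=
          mul_nonneg (by linarith) (mul_nonneg hCw hf)
        have e2 : 0 ≤ C w * f w := mul_nonneg hCw hf
        have e3 : 0 ≤ x * (C w * f w) := mul_nonneg hx e2
        nlinarith
    · rw [if_neg (not_lt.2 hb2)]
      have hv := h1 w hw hb2
      have e1 : C w * (1 - v w) * f w ≤ |C w * (1 - v w) * f w| := le_abs_self _
      rw [abs_mul, abs_mul, abs_of_nonneg hCw] at e1
      have e2 : |1 - v w| * (C w * |f w|) ≤ x * (C w * |f w|) :=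
        mul_le_mul_of_nonneg_right hv hCf
      nlinarith

/-- the finishing arithmetic -/
lemma finish (hk : S_kra) (n d : ℕ) (l : ℕ → ℝ) (f v : ℕ → ℝ)
    (hf : f = fun w => ∑ i ∈ Finset.range (n + 1), l i * (kr n i w : ℝ))
    (mu ε' E7 P : ℝ) (hn : 2 ≤ n * ε') (hE7 : E7 = Real.exp (n * (mu + ε' / 4)))
    (hP : P = ∑ w ∈ (Finset.range (n + 1)).filter (fun w => d ≤ w), (n.choose w : ℝ) * max (f w) 0)
    (hdual2 : |∑ w ∈ Finset.range (n + 1), (n.choose w : ℝ) * v w * f w| ≤ E7 * NN n f)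
    (hS : ∑ w ∈ Finset.range (n + 1), (n.choose w : ℝ) * (1 - v w) * f w ≤
      E7 * NN n f + (2 + Real.exp (n * (ε' / 4))) * P) :
    2 ^ n * l 0 ≤
    Real.exp (n * ε') * ∑ w ∈ (Finset.range (n + 1)).filter (fun w => d ≤ w),
      (n.choose w : ℝ) * max (∑ i ∈ Finset.range (n + 1), l i * (kr n i w : ℝ)) 0 +
    Real.exp (n * (mu + 1 / 2 * Real.log 2 + ε')) *
      ∑ j ∈ Finset.range (n + 1), (n.choose j : ℝ) * |l j| := by
  obtain ⟨-, hk2, hk3, -, -⟩ := hk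
  have htr : ∀ j, j ≤ n → tr n f j = √2 ^ n * l j := by
    intro j hj
    rw [hf]
    exact hk2 n l j hj
  have hs2 : (0 : ℝ) < √2 ^ n := by positivity
  have hs22 : (√2 : ℝ) ^ n * √2 ^ n = 2 ^ n := by
    rw [← mul_pow, Real.mul_self_sqrt (by norm_num)]
  have hs2e : (√2 : ℝ) ^ n = Real.exp (n * (1 / 2 * Real.log 2)) := by
    have e1 : (√2 : ℝ) = Real.exp (1 / 2 * Real.log 2) := by
      rw [Real.sqrt_eq_rpow, Real.rpow_def_of_pos (by norm_num)]
      congr 1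
      ring
    rw [e1, ← Real.exp_nat_mul]
  have hsum : ∑ w ∈ Finset.range (n + 1), (n.choose w : ℝ) * f w = 2 ^ n * l 0 := by
    have e1 := htr 0 (Nat.zero_le n)
    unfold tr at e1
    have e2 : ∑ w ∈ Finset.range (n + 1), f w * (kr n w 0 : ℝ) = √2 ^ n * (√2 ^ n * l 0) := by
      rw [← e1, ← mul_assoc, mul_inv_cancel₀ hs2.ne', one_mul]
    rw [← mul_assoc, hs22] at e2
    rw [← e2]
    refine Finset.sum_congr rfl fun w _ => ?_
    rw [hk3]
    push_cast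
    ring
  obtain ⟨Sg, hSg⟩ : ∃ Sg : ℝ, Sg = ∑ j ∈ Finset.range (n + 1), (n.choose j : ℝ) * |l j| :=
    ⟨_, rfl⟩
  have hSg0 : 0 ≤ Sg := by
    rw [hSg]
    exact Finset.sum_nonneg fun j _ => mul_nonneg (Nat.cast_nonneg _) (abs_nonneg _)
  have hNN : NN n f = √2 ^ n * Sg := by
    unfold NN
    rw [hSg, Finset.mul_sum]
    refine Finset.sum_congr rfl fun j hj => ?_
    have hj' : j ≤ n := by
      have := Finset.mem_range.1 hj
      omega
    rw [htr j hj', abs_mul, abs_of_pos hs2]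
    ring
  have hsplit : ∑ w ∈ Finset.range (n + 1), (n.choose w : ℝ) * (1 - v w) * f w =
      2 ^ n * l 0 - ∑ w ∈ Finset.range (n + 1), (n.choose w : ℝ) * v w * f w := by
    rw [← hsum, ← Finset.sum_sub_distrib]
    refine Finset.sum_congr rfl fun w _ => ?_
    ring
  have hP0 : 0 ≤ P := by
    rw [hP]
    exact Finset.sum_nonneg fun j _ => mul_nonneg (Nat.cast_nonneg _) (le_max_right _ _)
  have hfin : 2 ^ n * l 0 ≤ 2 * (E7 * NN n f) + (2 + Real.exp (n * (ε' / 4))) * P := by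
    have e1 := le_abs_self (∑ w ∈ Finset.range (n + 1), (n.choose w : ℝ) * v w * f w)
    rw [hsplit] at hS
    linarith
  rw [← hSg]
  have hPe : ∑ w ∈ (Finset.range (n + 1)).filter (fun w => d ≤ w),
      (n.choose w : ℝ) * max (∑ i ∈ Finset.range (n + 1), l i * (kr n i w : ℝ)) 0 = P := by
    rw [hP, hf]
  rw [hPe]
  refine hfin.trans ?_
  have g1 : 2 + Real.exp (n * (ε' / 4)) ≤ Real.exp (n * ε') := by
    have h1 : 1 + n * (ε' / 4) ≤ Real.exp (n * (ε' / 4)) := by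
      have := Real.add_one_le_exp (n * (ε' / 4))
      linarith
    have h2 : Real.exp (n * ε') = Real.exp (n * (ε' / 4)) ^ 4 := by
      rw [← Real.exp_nat_mul]
      congr 1
      push_cast
      ring
    have h3 : 3 / 2 ≤ Real.exp (n * (ε' / 4)) := by linarith
    rw [h2]
    obtain ⟨y, hy⟩ : ∃ y : ℝ, y = Real.exp (n * (ε' / 4)) := ⟨_, rfl⟩
    rw [← hy] at h3 ⊢
    have h4 : (9 / 4 : ℝ) ≤ y ^ 2 := by nlinarith
    have h5 : y ^ 4 = y ^ 2 * y ^ 2 := by ring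
    rw [h5]
    have h6 : 9 / 4 * y ^ 2 ≤ y ^ 2 * y ^ 2 := by nlinarith
    have h7 : 3 / 2 * y ≤ y ^ 2 := by nlinarith
    nlinarith
  have g2 : 2 * (E7 * NN n f) ≤ Real.exp (n * (mu + 1 / 2 * Real.log 2 + ε')) * Sg := by
    rw [hNN]
    have e1 : Real.exp (n * (mu + 1 / 2 * Real.log 2 + ε')) =
        Real.exp (n * (3 / 4 * ε')) * (E7 * √2 ^ n) := by
      rw [hE7, hs2e, ← Real.exp_add, ← Real.exp_add]
      congr 1
      ring
    rw [e1]
    have e2 : 2 ≤ Real.exp (n * (3 / 4 * ε')) := by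
      have := Real.add_one_le_exp (n * (3 / 4 * ε'))
      linarith
    have e3 : 0 ≤ E7 * √2 ^ n * Sg := by
      rw [hE7]
      positivity
    calc 2 * (E7 * (√2 ^ n * Sg)) = 2 * (E7 * √2 ^ n * Sg) := by ring
      _ ≤ Real.exp (n * (3 / 4 * ε')) * (E7 * √2 ^ n * Sg) :=
          mul_le_mul_of_nonneg_right e2 e3
      _ = Real.exp (n * (3 / 4 * ε')) * (E7 * √2 ^ n) * Sg := by ring
  have g3 := mul_le_mul_of_nonneg_right g1 hP0
  linarith

theorem star3 (hk : S_kra) (hp : S3_ph) (hl : S3_left) (hr : S3_right) (ht : S3_trans)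
    (hd : S3_dual) (hn : S3_near) (m δ ε' : ℝ) (hm : 0 < m) (hδ : δ < NR m 0) (hε' : 0 < ε') :
    ∃ n₀ : ℕ, ∀ n : ℕ, n₀ ≤ n → Qz m n → ∀ d : ℕ, (d : ℝ) ≤ δ * n →
      StarAt n d (Real.exp (n * ε')) (Real.exp (n * (mu3 m + 1 / 2 * Real.log 2 + ε'))) := by
  have hPh0 : Ph m 0 = 0 := (hp m hm).2.1
  obtain ⟨γ, hγ⟩ : ∃ γ : ℝ, γ = NR m 0 - δ := ⟨_, rfl⟩
  have hγ0 : 0 < γ := by rw [hγ]; linarith
  obtain ⟨ε, hε⟩ : ∃ ε : ℝ, ε = min (γ / 2) (1 / 4) := ⟨_, rfl⟩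
  have hε0 : 0 < ε := by
    rw [hε]
    exact lt_min (by linarith) (by norm_num)
  have hε4 : ε ≤ 1 / 4 := by
    rw [hε]
    exact min_le_right _ _
  have hεγ : ε ≤ γ / 2 := by
    rw [hε]
    exact min_le_left _ _
  obtain ⟨D0, hD0, ct, hct0, hct⟩ := ht m ε hm hε0 (by linarith)
  obtain ⟨Δ, hΔ⟩ : ∃ Δ : ℝ, Δ = min D0 ε := ⟨_, rfl⟩
  have hΔ0 : 0 < Δ := by
    rw [hΔ]
    exact lt_min hD0 hε0
  have hΔD : Δ ≤ D0 := by
    rw [hΔ]
    exact min_le_left _ _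
  have hΔε : Δ ≤ ε := by
    rw [hΔ]
    exact min_le_right _ _
  obtain ⟨cl, hcl0, hcl⟩ := hl m ε Δ hm hε0 hΔ0
  obtain ⟨cr, hcr0, hcr⟩ := hr m ε (ε' / 4) hm hε0 (by linarith)
  obtain ⟨cd, hcd0, hcd⟩ := hd m ε (ε' / 4) hm hε0 (by linarith)
  obtain ⟨c, hc⟩ : ∃ c : ℝ, c = min (min ct cr) (min cl cd) := ⟨_, rfl⟩
  have hc0 : 0 < c := by
    rw [hc]
    exact lt_min (lt_min hct0 hcr0) (lt_min hcl0 hcd0)
  obtain ⟨εt, hεt, n1, h1⟩ := hct c hc0
    (by rw [hc]; exact (min_le_left _ _).trans (min_le_left _ _))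
  obtain ⟨n7, h7⟩ := hcr c hc0
    (by rw [hc]; exact (min_le_left _ _).trans (min_le_right _ _))
  obtain ⟨εl, hεl, n2, h2⟩ := hcl c hc0
    (by rw [hc]; exact (min_le_right _ _).trans (min_le_left _ _))
  obtain ⟨n4, h4⟩ := hcd c hc0
    (by rw [hc]; exact (min_le_right _ _).trans (min_le_right _ _))
  obtain ⟨ε1, hε1e⟩ : ∃ ε1 : ℝ, ε1 = min εt εl := ⟨_, rfl⟩
  have hε1 : 0 < ε1 := by
    rw [hε1e]
    exact lt_min hεt hεl
  have hε1t : ε1 ≤ εt := by
    rw [hε1e]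
    exact min_le_left _ _
  have hε1l : ε1 ≤ εl := by
    rw [hε1e]
    exact min_le_right _ _
  obtain ⟨n3, h3⟩ := hn m ε (ε1 / 2) (ε' / 4) hm hε0 (by linarith) (by linarith)
  obtain ⟨n5, h5⟩ := exists_nat_ge (10 / ε1)
  obtain ⟨n6, h6⟩ := exists_nat_ge (2 / ε')
  refine ⟨n1 + n2 + n3 + n4 + n5 + n6 + n7 + 1, ?_⟩
  intro n hnn hQz d hdn l
  have hn1 : (1 : ℝ) ≤ n := by
    have : 1 ≤ n := by omega
    exact_mod_cast this
  have hnpos : (0 : ℝ) < n := by linarith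
  -- the function
  obtain ⟨f, hf⟩ : ∃ f : ℕ → ℝ, f = fun w => ∑ i ∈ Finset.range (n + 1), l i * (kr n i w : ℝ) :=
    ⟨_, rfl⟩
  -- the weights
  obtain ⟨v, hv⟩ : ∃ v : ℕ → ℝ, ∀ w, v w = (vN m n w ε c 0).re := ⟨_, fun _ => rfl⟩
  have hre : (∑ w ∈ Finset.range (n + 1), (n.choose w : ℂ) * vN m n w ε c 0 * (f w : ℂ)).re =
      ∑ w ∈ Finset.range (n + 1), (n.choose w : ℝ) * v w * f w := by
    rw [Complex.re_sum]
    refine Finset.sum_congr rfl fun w _ => ?_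
    rw [Complex.re_mul_ofReal, ← Complex.ofReal_natCast, Complex.re_ofReal_mul, hv]
  have hdual := h4 n (by omega) hQz 0 f
  have hNN0 : 0 ≤ NN n f := by
    unfold NN
    exact Finset.sum_nonneg fun j _ => mul_nonneg (Nat.cast_nonneg _) (abs_nonneg _)
  obtain ⟨E7, hE7⟩ : ∃ E7 : ℝ, E7 = Real.exp (n * (mu3 m + ε' / 4)) := ⟨_, rfl⟩
  have hE70 : 0 < E7 := by
    rw [hE7]
    exact Real.exp_pos _
  have hdual2 : |∑ w ∈ Finset.range (n + 1), (n.choose w : ℝ) * v w * f w| ≤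
      E7 * NN n f := by
    rw [← hre, hE7]
    exact (Complex.abs_re_le_norm _).trans hdual
  -- the position of the small weights
  have hsmall : ∀ w : ℕ, w < d → (w : ℝ) ≤ (NR m 0 - ε - Δ) * n := by
    intro w hw
    have e1 : (w : ℝ) ≤ δ * n := by
      have : (w : ℝ) ≤ d := by exact_mod_cast hw.le
      linarith
    have e2 : δ ≤ NR m 0 - ε - Δ := by linarith
    exact e1.trans (mul_le_mul_of_nonneg_right e2 hnpos.le)
  have hwn : ∀ w ∈ Finset.range (n + 1), w ≤ n := fun w hw => by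
    have := Finset.mem_range.1 hw
    omega
  have hexpt : Real.exp (-εt * n) ≤ Real.exp (-ε1 * n) :=
    Real.exp_le_exp.2 (mul_le_mul_of_nonneg_right (neg_le_neg hε1t) hnpos.le)
  have hexpl : Real.exp (-εl * n) ≤ Real.exp (-ε1 * n) :=
    Real.exp_le_exp.2 (mul_le_mul_of_nonneg_right (neg_le_neg hε1l) hnpos.le)
  have hres : ∀ w : ℕ, Complex.exp (n * Ph m (((0 : ℝ) : ℂ) * Complex.I) -
      w * (((0 : ℝ) : ℂ) * Complex.I)) = 1 := by
    intro w
    rw [Complex.ofReal_zero, zero_mul, hPh0]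
    simp
  have hAB : (NR m 0 - ε - Δ) * n < (NR m 0 - ε) * n :=
    mul_lt_mul_of_pos_right (by linarith) hnpos
  have hDD : NR m 0 - ε - D0 ≤ NR m 0 - ε - Δ := by linarith
  have a1 : ∀ w ∈ Finset.range (n + 1), (w : ℝ) ≤ (NR m 0 - ε - Δ) * n →
      |1 - v w| ≤ Real.exp (-ε1 * n) := by
    intro w hw hb
    have e1 := h2 n w (by omega) hQz hb 0
    rw [hres] at e1
    have e2 := (Complex.abs_re_le_norm _).trans e1
    rw [Complex.sub_re, Complex.one_re, ← hv, abs_sub_comm] at e2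
    exact e2.trans hexpl
  have a2 : ∀ w ∈ Finset.range (n + 1), (NR m 0 - ε - Δ) * n ≤ (w : ℝ) →
      v w ≤ 1 + Real.exp (-ε1 * n) := by
    intro w hw hb
    have e0 : (NR m 0 - ε - D0) * n ≤ (w : ℝ) :=
      (mul_le_mul_of_nonneg_right hDD hnpos.le).trans hb
    have e1 := (h1 n w (by omega) (hwn w hw) hQz).1 e0
    rw [hv]
    exact e1.trans (by linarith)
  have a3 : ∀ w ∈ Finset.range (n + 1), (NR m 0 - ε) * n ≤ (w : ℝ) → v w ≤ 5 / 6 := by
    intro w hw hb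
    have e1 := (h1 n w (by omega) (hwn w hw) hQz).2 hb
    rw [hv]
    exact e1
  have a4 : ∀ w ∈ Finset.range (n + 1), -Real.exp (n * (ε' / 4)) ≤ v w := by
    intro w hw
    have e1 := h7 n w (by omega) (hwn w hw) 0
    have e2 := (abs_le.1 ((Complex.abs_re_le_norm _).trans e1)).1
    rw [hv, mul_comm (n : ℝ)]
    exact e2
  have hcmp := compare3 (n + 1) (fun w => (n.choose w : ℝ)) v f ((NR m 0 - ε - Δ) * n)
    ((NR m 0 - ε) * n) (Real.exp (-ε1 * n)) (Real.exp (n * (ε' / 4)))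
    (fun w => Nat.cast_nonneg _) hAB (Real.exp_pos _).le a1 a2 a3 a4 (Real.exp_pos _).le
  have hnear := h3 n (by omega) hQz f
  obtain ⟨Ne, hNe⟩ : ∃ Ne : ℝ, Ne = ∑ w ∈ (Finset.range (n + 1)).filter
    (fun w : ℕ => (w : ℝ) < (NR m 0 - ε) * n), (n.choose w : ℝ) * |f w| := ⟨_, rfl⟩
  obtain ⟨Fa, hFa⟩ : ∃ Fa : ℝ, Fa = ∑ w ∈ (Finset.range (n + 1)).filter
    (fun w : ℕ => (NR m 0 - ε) * n ≤ (w : ℝ)), (n.choose w : ℝ) * |f w| := ⟨_, rfl⟩
  have hFa0 : 0 ≤ Fa := by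
    rw [hFa]
    exact Finset.sum_nonneg fun j _ => mul_nonneg (Nat.cast_nonneg _) (abs_nonneg _)
  rw [← hNe, ← hFa, ← hE7] at hnear
  rw [← hNe, ← hFa] at hcmp
  obtain ⟨P, hP⟩ : ∃ P : ℝ, P = ∑ w ∈ (Finset.range (n + 1)).filter (fun w => d ≤ w),
    (n.choose w : ℝ) * max (f w) 0 := ⟨_, rfl⟩
  have hPle : ∑ w ∈ (Finset.range (n + 1)).filter
      (fun w : ℕ => (NR m 0 - ε - Δ) * n < (w : ℝ)), (n.choose w : ℝ) * max (f w) 0 ≤ P := by
    rw [hP]
    refine Finset.sum_le_sum_of_subset_of_nonneg ?_ ?_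
    · intro w hw
      rw [Finset.mem_filter] at hw ⊢
      refine ⟨hw.1, ?_⟩
      by_contra hcon
      have := hsmall w (by omega)
      exact absurd hw.2 (not_lt.2 this)
    · intro w _ _
      exact mul_nonneg (Nat.cast_nonneg _) (le_max_right _ _)
  -- the exponential factors
  have hx6 : Real.exp (-(ε1 / 2) * n) ≤ 1 / 6 := by
    have e1 : 5 ≤ ε1 / 2 * n := by
      have e2 : (n5 : ℝ) ≤ n := by
        have : n5 ≤ n := by omega
        exact_mod_cast this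
      have e3 : 10 / ε1 ≤ n := h5.trans e2
      rw [div_le_iff₀ hε1] at e3
      linarith
    have e2 := Real.add_one_le_exp (ε1 / 2 * n)
    have e3 : 6 ≤ Real.exp (ε1 / 2 * n) := by linarith
    rw [neg_mul, Real.exp_neg, one_div]
    exact inv_anti₀ (by norm_num) e3
  have hxx : Real.exp (-ε1 * n) * Real.exp (ε1 / 2 * n) = Real.exp (-(ε1 / 2) * n) := by
    rw [← Real.exp_add]
    congr 1
    ring
  have hx1 : Real.exp (-ε1 * n) ≤ 1 := by
    rw [Real.exp_le_one_iff, neg_mul]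
    exact neg_nonpos.2 (mul_nonneg hε1.le hnpos.le)
  have hE := mul_nonneg hE70.le hNN0
  have hS : ∑ w ∈ Finset.range (n + 1), (n.choose w : ℝ) * (1 - v w) * f w ≤
      E7 * NN n f + (2 + Real.exp (n * (ε' / 4))) * P := by
    refine hcmp.trans ?_
    have e1 : Real.exp (-ε1 * n) * Ne ≤ Real.exp (-(ε1 / 2) * n) * Fa +
        Real.exp (-ε1 * n) * (E7 * NN n f) := by
      rw [← hxx, mul_assoc, ← mul_add]
      exact mul_le_mul_of_nonneg_left hnear (Real.exp_pos _).le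
    have e2 : Real.exp (-(ε1 / 2) * n) * Fa ≤ 1 / 6 * Fa :=
      mul_le_mul_of_nonneg_right hx6 hFa0
    have e3 : Real.exp (-ε1 * n) * (E7 * NN n f) ≤ 1 * (E7 * NN n f) :=
      mul_le_mul_of_nonneg_right hx1 hE
    have e4 : (0 : ℝ) ≤ 2 + Real.exp (n * (ε' / 4)) := by positivity
    have e5 := mul_le_mul_of_nonneg_left hPle e4
    linarith
  have f1 : 2 ≤ n * ε' := by
    have f2 : (n6 : ℝ) ≤ n := by
      have : n6 ≤ n := by omega
      exact_mod_cast this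
    have f3 : 2 / ε' ≤ n := h6.trans f2
    rw [div_le_iff₀ hε'] at f3
    exact f3
  exact finish hk n d l f v hf (mu3 m) ε' E7 P f1 hE7 hP hdual2 hS

theorem star4 (hk : S_kra) (hqq : S_qq) (hp : S4_ph) (hvl : S4_vl) (hvr : S4_vr) (hvt : S4_vt)
    (hd : S4_dual) (hn : S4_near) (m δ ε' : ℝ) (q : ℕ) (hm : 0 < m)
    (hδ : δ < 1 / 2 - 1 / 2 * THR 0 m) (hε' : 0 < ε') (hq : 0 < q)
    (hpq : ∃ p : ℤ, Odd p ∧ Nbar m * q = p) :
    ∃ r : ℕ, Odd r ∧ ∃ n₀ : ℕ, ∀ n : ℕ, n₀ ≤ n → (∃ j : ℕ, Odd j ∧ n = q * r * j) →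
      ∀ d : ℕ, (d : ℝ) ≤ δ * n →
      StarAt n d (Real.exp (n * ε')) (Real.exp (n * (mu4 m + 1 / 2 * Real.log 2 + ε'))) := by
  obtain ⟨p, hpodd, hpN⟩ := hpq
  obtain ⟨T, hT⟩ : ∃ T : ℝ, T = Real.arsinh (√m) / 2 := ⟨_, rfl⟩
  have hT0 : 0 < T := by
    rw [hT]
    have : 0 < Real.arsinh (√m) := Real.arsinh_pos_iff.2 (Real.sqrt_pos.2 hm)
    linarith
  have hTs : Real.sinh (2 * T) ^ 2 = m := by
    rw [hT, mul_div_cancel₀ _ (two_ne_zero), Real.sinh_arsinh, Real.sq_sqrt hm.le]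
  obtain ⟨γ, hγ⟩ : ∃ γ : ℝ, γ = 1 - 2 * δ - THR 0 m := ⟨_, rfl⟩
  have hγ0 : 0 < γ := by
    rw [hγ]
    linarith
  obtain ⟨ε, hε⟩ : ∃ ε : ℝ, ε = min (min (γ / 2) (ε' / 8)) (1 / 4) := ⟨_, rfl⟩
  have hε0 : 0 < ε := by
    rw [hε]
    exact lt_min (lt_min (by linarith) (by linarith)) (by norm_num)
  have hε4 : ε ≤ 1 / 4 := by
    rw [hε]
    exact min_le_right _ _
  have hεγ : ε ≤ γ / 2 := by
    rw [hε]
    exact (min_le_left _ _).trans (min_le_left _ _)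
  have hεε' : ε ≤ ε' / 8 := by
    rw [hε]
    exact (min_le_left _ _).trans (min_le_right _ _)
  obtain ⟨D0, hD0, εt, hεt, n1, h1⟩ := hvt m hm ε ε hε0 (by linarith) hε0.le (by linarith)
  obtain ⟨Δ, hΔ⟩ : ∃ Δ : ℝ, Δ = min D0 ε := ⟨_, rfl⟩
  have hΔ0 : 0 < Δ := by
    rw [hΔ]
    exact lt_min hD0 hε0
  have hΔD : Δ ≤ D0 := by
    rw [hΔ]
    exact min_le_left _ _
  have hΔε : Δ ≤ ε := by
    rw [hΔ]
    exact min_le_right _ _
  obtain ⟨εl, hεl, n2, h2⟩ := hvl m T hm hT0 hTs ε ε Δ (T / 2) hε0 hε0.le (by linarith) hΔ0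
    (by linarith)
  obtain ⟨n7, h7⟩ := hvr m T hm hT0 hTs ε (ε' / 4) (T / 2) hε0 (by linarith) (by linarith)
  obtain ⟨n4, h4⟩ := hd m ε hm hε0
  obtain ⟨ε1, hε1e⟩ : ∃ ε1 : ℝ, ε1 = min εt εl := ⟨_, rfl⟩
  have hε1 : 0 < ε1 := by
    rw [hε1e]
    exact lt_min hεt hεl
  have hε1t : ε1 ≤ εt := by
    rw [hε1e]
    exact min_le_left _ _
  have hε1l : ε1 ≤ εl := by
    rw [hε1e]
    exact min_le_right _ _
  obtain ⟨r, hr, n3, h3⟩ := hn m q hm hq ⟨p, hpN⟩ ε (ε1 / 2) (ε' / 4) hε0 (by linarith)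
    (by linarith)
  obtain ⟨n5, h5⟩ := exists_nat_ge (14 / ε1)
  obtain ⟨n6, h6⟩ := exists_nat_ge (2 / ε')
  refine ⟨r, hr, n1 + n2 + n3 + n4 + n5 + n6 + n7 + 1, ?_⟩
  intro n hnn hjn d hdn l
  obtain ⟨j, hj, hnj⟩ := hjn
  have hqz : Qz4 m n (-1) := MA4f.qz4_odd m q r j n p hpodd hpN hr hj hnj
  have hdvd : q * r ∣ n := ⟨j, hnj⟩
  have hn1 : (1 : ℝ) ≤ n := by
    have : 1 ≤ n := by omega
    exact_mod_cast this
  have hnpos : (0 : ℝ) < n := by linarith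
  -- the function
  obtain ⟨f, hf⟩ : ∃ f : ℕ → ℝ, f = fun w => ∑ i ∈ Finset.range (n + 1), l i * (kr n i w : ℝ) :=
    ⟨_, rfl⟩
  -- the weights
  obtain ⟨v, hv⟩ : ∃ v : ℕ → ℝ, ∀ w, v w = (v4 m n w (-1) ε ε 0).re := ⟨_, fun _ => rfl⟩
  have hre : (∑ w ∈ Finset.range (n + 1), (n.choose w : ℂ) * v4 m n w (-1) ε ε 0 *
      (f w : ℂ)).re = ∑ w ∈ Finset.range (n + 1), (n.choose w : ℝ) * v w * f w := by
    rw [Complex.re_sum]
    refine Finset.sum_congr rfl fun w _ => ?_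
    rw [Complex.re_mul_ofReal, ← Complex.ofReal_natCast, Complex.re_ofReal_mul, hv]
  have hdual := h4 n (by omega) (-1) ε 0 f (by norm_num)
  have hNN0 : 0 ≤ NN n f := by
    unfold NN
    exact Finset.sum_nonneg fun j _ => mul_nonneg (Nat.cast_nonneg _) (abs_nonneg _)
  obtain ⟨E7, hE7⟩ : ∃ E7 : ℝ, E7 = Real.exp (n * (mu4 m + ε' / 4)) := ⟨_, rfl⟩
  have hE70 : 0 < E7 := by
    rw [hE7]
    exact Real.exp_pos _
  have hdual2 : |∑ w ∈ Finset.range (n + 1), (n.choose w : ℝ) * v w * f w| ≤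
      E7 * NN n f := by
    rw [← hre]
    refine (Complex.abs_re_le_norm _).trans (hdual.trans ?_)
    refine mul_le_mul_of_nonneg_right ?_ hNN0
    rw [hE7]
    refine Real.exp_le_exp.2 (mul_le_mul_of_nonneg_left ?_ hnpos.le)
    rw [abs_of_pos hε0]
    linarith
  -- the position of the small weights
  have hbbw : ∀ w : ℕ, w < d → ε + Δ ≤ 1 - 2 * (w : ℝ) / n - THR 0 m := by
    intro w hw
    have e1 : (w : ℝ) ≤ δ * n := by
      have : (w : ℝ) ≤ d := by exact_mod_cast hw.le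
      linarith
    have e2 : 2 * (w : ℝ) / n ≤ 2 * δ := by
      rw [div_le_iff₀ hnpos]
      linarith
    linarith
  have hwn : ∀ w ∈ Finset.range (n + 1), w ≤ n := fun w hw => by
    have := Finset.mem_range.1 hw
    omega
  have hexpt : Real.exp (-εt * n) ≤ Real.exp (-ε1 * n) :=
    Real.exp_le_exp.2 (mul_le_mul_of_nonneg_right (neg_le_neg hε1t) hnpos.le)
  have hexpl : Real.exp (-εl * n) ≤ Real.exp (-ε1 * n) :=
    Real.exp_le_exp.2 (mul_le_mul_of_nonneg_right (neg_le_neg hε1l) hnpos.le)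
  have hcmp := compare4 (n + 1) (fun w => (n.choose w : ℝ)) v f
    (fun w : ℕ => 1 - 2 * (w : ℝ) / n - THR 0 m) ε Δ
    (Real.exp (-ε1 * n)) (Real.exp (n * (ε' / 4))) (fun w => Nat.cast_nonneg _) hΔ0
    (Real.exp_pos _).le (Real.exp_pos _).le
    (fun w hw hb => by
      have e1 := h2 n (by omega) (-1) hqz w (hwn w hw) 0 (by
        rw [abs_zero]
        linarith) (by
        rw [mul_zero, Real.cosh_zero, mul_one, Real.sinh_zero]
        rw [show (0 : ℝ) ^ 2 = 0 by norm_num]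
        exact hb)
      rw [MA4f.QJ_zero hqq hp m hm n w (hwn w hw)] at e1
      have e2 := (Complex.abs_re_le_norm _).trans e1
      rw [Complex.sub_re, Complex.one_re, ← hv, abs_sub_comm] at e2
      exact e2.trans hexpl)
    (fun w hw hb => by
      have e1 := (h1 n (by omega) hqz w (hwn w hw)).1 (hb.trans (by linarith))
      rw [hv]
      exact e1.trans (by linarith))
    (fun w hw hb => by
      have e1 := (h1 n (by omega) hqz w (hwn w hw)).2 hb
      rw [hv]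
      exact e1)
    (fun w hw => by
      have e1 := h7 n (by omega) (-1) hqz w (hwn w hw) ε 0 (by
        rw [abs_of_pos hε0]
        linarith) (by
        rw [abs_zero]
        linarith)
      have e2 := (abs_le.1 ((Complex.abs_re_le_norm _).trans e1)).1
      rw [hv, mul_comm (n : ℝ)]
      exact e2)
  have hnear := h3 n (by omega) hdvd f
  obtain ⟨Ne, hNe⟩ : ∃ Ne : ℝ, Ne = ∑ w ∈ (Finset.range (n + 1)).filter
    (fun w : ℕ => ε ≤ 1 - 2 * (w : ℝ) / n - THR 0 m), (n.choose w : ℝ) * |f w| := ⟨_, rfl⟩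
  obtain ⟨Fa, hFa⟩ : ∃ Fa : ℝ, Fa = ∑ w ∈ (Finset.range (n + 1)).filter
    (fun w : ℕ => 1 - 2 * (w : ℝ) / n - THR 0 m < ε), (n.choose w : ℝ) * |f w| := ⟨_, rfl⟩
  have hFa0 : 0 ≤ Fa := by
    rw [hFa]
    exact Finset.sum_nonneg fun j _ => mul_nonneg (Nat.cast_nonneg _) (abs_nonneg _)
  rw [← hNe, ← hFa, ← hE7] at hnear
  rw [← hNe, ← hFa] at hcmp
  obtain ⟨P, hP⟩ : ∃ P : ℝ, P = ∑ w ∈ (Finset.range (n + 1)).filter (fun w => d ≤ w),
    (n.choose w : ℝ) * max (f w) 0 := ⟨_, rfl⟩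
  have hPle : ∑ w ∈ (Finset.range (n + 1)).filter
      (fun w : ℕ => 1 - 2 * (w : ℝ) / n - THR 0 m < ε + Δ),
      (n.choose w : ℝ) * max (f w) 0 ≤ P := by
    rw [hP]
    refine Finset.sum_le_sum_of_subset_of_nonneg ?_ ?_
    · intro w hw
      rw [Finset.mem_filter] at hw ⊢
      refine ⟨hw.1, ?_⟩
      by_contra hcon
      have := hbbw w (by omega)
      linarith [hw.2]
    · intro w _ _
      exact mul_nonneg (Nat.cast_nonneg _) (le_max_right _ _)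
  -- the exponential factors
  have hx8 : Real.exp (-(ε1 / 2) * n) ≤ 1 / 8 := by
    have e1 : 7 ≤ ε1 / 2 * n := by
      have e2 : (n5 : ℝ) ≤ n := by
        have : n5 ≤ n := by omega
        exact_mod_cast this
      have e3 : 14 / ε1 ≤ n := h5.trans e2
      rw [div_le_iff₀ hε1] at e3
      linarith
    have e2 := Real.add_one_le_exp (ε1 / 2 * n)
    have e3 : 8 ≤ Real.exp (ε1 / 2 * n) := by linarith
    rw [neg_mul, Real.exp_neg, one_div]
    exact inv_anti₀ (by norm_num) e3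
  have hxx : Real.exp (-ε1 * n) * Real.exp (ε1 / 2 * n) = Real.exp (-(ε1 / 2) * n) := by
    rw [← Real.exp_add]
    congr 1
    ring
  have hx1 : Real.exp (-ε1 * n) ≤ 1 := by
    rw [Real.exp_le_one_iff, neg_mul, neg_nonpos]
    exact (mul_pos hε1 hnpos).le
  have hE := mul_nonneg hE70.le hNN0
  have hS : ∑ w ∈ Finset.range (n + 1), (n.choose w : ℝ) * (1 - v w) * f w ≤
      E7 * NN n f + (2 + Real.exp (n * (ε' / 4))) * P := by
    refine hcmp.trans ?_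
    have e1 : Real.exp (-ε1 * n) * Ne ≤ Real.exp (-(ε1 / 2) * n) * Fa +
        Real.exp (-ε1 * n) * (E7 * NN n f) := by
      rw [← hxx, mul_assoc, ← mul_add]
      exact mul_le_mul_of_nonneg_left hnear (Real.exp_pos _).le
    have e2 : Real.exp (-(ε1 / 2) * n) * Fa ≤ 1 / 8 * Fa :=
      mul_le_mul_of_nonneg_right hx8 hFa0
    have e3 : Real.exp (-ε1 * n) * (E7 * NN n f) ≤ 1 * (E7 * NN n f) :=
      mul_le_mul_of_nonneg_right hx1 hE
    have e4 : (0 : ℝ) ≤ 2 + Real.exp (n * (ε' / 4)) := by positivity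
    have e5 := mul_le_mul_of_nonneg_left hPle e4
    linarith
  have f1 : 2 ≤ n * ε' := by
    have f2 : (n6 : ℝ) ≤ n := by
      have : n6 ≤ n := by omega
      exact_mod_cast this
    have f3 : 2 / ε' ≤ n := h6.trans f2
    rw [div_le_iff₀ hε'] at f3
    exact f3
  exact finish hk n d l f v hf (mu4 m) ε' E7 P f1 hE7 hP hdual2 hS

end Pool.Agent.Y570.KP
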