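import Mathlib
import Pool.Agent.Y570.KP.Star
import Pool.Agent.TH41.BL.KRA
import Pool.Agent.TH41.BL.CE7

/-!
Y570/KP (helper570, MP_0430e4_lc): duality, by the theorem of Hahn and Banach.
-/

set_option autoImplicit false

namespace Pool.Agent.Y570.KP

open Finset Pool.Agent.TH41.BL

/-- the function of a vector of coefficients -/
noncomputable def fn (n : ℕ) (l : Fin (n + 1) → ℝ) (w : ℕ) : ℝ :=
  ∑ i : Fin (n + 1), l i * (kr n i w : ℝ)

lemma fn_add (n : ℕ) (l l' : Fin (n + 1) → ℝ) (w : ℕ) : fn n (l + l') w = fn n l w + fn n l' w := by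
  unfold fn
  rw [← Finset.sum_add_distrib]
  refine Finset.sum_congr rfl fun i _ => ?_
  rw [Pi.add_apply]
  ring

lemma fn_smul (n : ℕ) (c : ℝ) (l : Fin (n + 1) → ℝ) (w : ℕ) : fn n (c • l) w = c * fn n l w := by
  unfold fn
  rw [Finset.mul_sum]
  refine Finset.sum_congr rfl fun i _ => ?_
  rw [Pi.smul_apply, smul_eq_mul]
  ring

/-- the first sublinear functional -/
noncomputable def p1 (n d : ℕ) (K : ℝ) (l : Fin (n + 1) → ℝ) : ℝ :=
  K * ∑ w ∈ (Finset.range (n + 1)).filter (fun w => d ≤ w), (n.choose w : ℝ) * max (fn n l w) 0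

/-- the second sublinear functional -/
noncomputable def p2 (n : ℕ) (L : ℝ) (l : Fin (n + 1) → ℝ) : ℝ :=
  L * ∑ j : Fin (n + 1), (n.choose j : ℝ) * |l j|

lemma p1_smul (n d : ℕ) (K c : ℝ) (hc : 0 < c) (l : Fin (n + 1) → ℝ) :
    p1 n d K (c • l) = c * p1 n d K l := by
  unfold p1
  have h1 : ∑ w ∈ (Finset.range (n + 1)).filter (fun w => d ≤ w),
      (n.choose w : ℝ) * max (fn n (c • l) w) 0 = c * ∑ w ∈ (Finset.range (n + 1)).filter
      (fun w => d ≤ w), (n.choose w : ℝ) * max (fn n l w) 0 := by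
    rw [Finset.mul_sum]
    refine Finset.sum_congr rfl fun w _ => ?_
    rw [fn_smul]
    have : max (c * fn n l w) 0 = c * max (fn n l w) 0 := by
      rw [mul_max_of_nonneg _ _ hc.le, mul_zero]
    rw [this]
    ring
  rw [h1]
  ring

lemma p2_smul (n : ℕ) (L c : ℝ) (hc : 0 < c) (l : Fin (n + 1) → ℝ) :
    p2 n L (c • l) = c * p2 n L l := by
  unfold p2
  have h1 : ∑ j : Fin (n + 1), (n.choose j : ℝ) * |(c • l) j| =
      c * ∑ j : Fin (n + 1), (n.choose j : ℝ) * |l j| := by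
    rw [Finset.mul_sum]
    refine Finset.sum_congr rfl fun w _ => ?_
    rw [Pi.smul_apply, smul_eq_mul, abs_mul, abs_of_pos hc]
    ring
  rw [h1]
  ring

lemma p1_add (n d : ℕ) (K : ℝ) (hK : 0 ≤ K) (l l' : Fin (n + 1) → ℝ) :
    p1 n d K (l + l') ≤ p1 n d K l + p1 n d K l' := by
  unfold p1
  rw [← mul_add, ← Finset.sum_add_distrib]
  refine mul_le_mul_of_nonneg_left (Finset.sum_le_sum fun w _ => ?_) hK
  rw [← mul_add, fn_add]
  refine mul_le_mul_of_nonneg_left ?_ (Nat.cast_nonneg _)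
  refine max_le (add_le_add (le_max_left _ _) (le_max_left _ _))
    (add_nonneg (le_max_right _ _) (le_max_right _ _))

lemma p2_add (n : ℕ) (L : ℝ) (hL : 0 ≤ L) (l l' : Fin (n + 1) → ℝ) :
    p2 n L (l + l') ≤ p2 n L l + p2 n L l' := by
  unfold p2
  rw [← mul_add, ← Finset.sum_add_distrib]
  refine mul_le_mul_of_nonneg_left (Finset.sum_le_sum fun w _ => ?_) hL
  rw [← mul_add]
  refine mul_le_mul_of_nonneg_left ?_ (Nat.cast_nonneg _)
  exact abs_add_le _ _

/-- splitting a linear functional below a sum of two sublinear ones -/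
lemma split_functional {V : Type} [AddCommGroup V] [Module ℝ V] (f : V →ₗ[ℝ] ℝ) (p q : V → ℝ)
    (hp : ∀ c : ℝ, 0 < c → ∀ x, p (c • x) = c * p x) (hq : ∀ c : ℝ, 0 < c → ∀ x, q (c • x) = c * q x)
    (hpa : ∀ x y, p (x + y) ≤ p x + p y) (hqa : ∀ x y, q (x + y) ≤ q x + q y)
    (hf : ∀ x, f x ≤ p x + q x) :
    ∃ f1 f2 : V →ₗ[ℝ] ℝ, (∀ x, f1 x ≤ p x) ∧ (∀ x, f2 x ≤ q x) ∧ ∀ x, f x = f1 x + f2 x := by
  have hp0 : p 0 = 0 := by
    have := hp 2 two_pos 0
    rw [smul_zero] at this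
    linarith
  have hq0 : q 0 = 0 := by
    have := hq 2 two_pos 0
    rw [smul_zero] at this
    linarith
  -- the diagonal
  obtain ⟨dg, hdg⟩ : ∃ dg : V →ₗ[ℝ] V × V, dg = LinearMap.prod LinearMap.id LinearMap.id := ⟨_, rfl⟩
  have hinj : Function.Injective dg := by
    intro a b hab
    have := congrArg Prod.fst hab
    rw [hdg] at this
    simpa using this
  let e := LinearEquiv.ofInjective dg hinj
  let F : V × V →ₗ.[ℝ] ℝ := ⟨LinearMap.range dg, f.comp e.symm.toLinearMap⟩
  obtain ⟨g, hg1, hg2⟩ := exists_extension_of_le_sublinear F (fun z => p z.1 + q z.2)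
    (fun c hc x => by
      simp only [Prod.smul_fst, Prod.smul_snd]
      rw [hp c hc, hq c hc]
      ring)
    (fun x y => by
      simp only [Prod.fst_add, Prod.snd_add]
      have h1 := hpa x.1 y.1
      have h2 := hqa x.2 y.2
      linarith)
    (fun x => by
      obtain ⟨v, hv⟩ := e.surjective x
      have h1 : F x = f v := by
        change f (e.symm x) = f v
        rw [← hv, LinearEquiv.symm_apply_apply]
      have h2 : (x : V × V) = (v, v) := by
        rw [← hv, LinearEquiv.ofInjective_apply, hdg]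
        rfl
      rw [h1, h2]
      exact hf v)
  refine ⟨g.comp (LinearMap.inl ℝ V V), g.comp (LinearMap.inr ℝ V V), fun x => ?_, fun x => ?_,
    fun x => ?_⟩
  · have := hg2 (x, 0)
    rw [hq0, add_zero] at this
    exact this
  · have := hg2 (0, x)
    rw [hp0, zero_add] at this
    exact this
  · have h1 : F (e x) = f x := by
      change f (e.symm (e x)) = f x
      rw [LinearEquiv.symm_apply_apply]
    have h2 : ((e x : LinearMap.range dg) : V × V) = (x, x) := by
      rw [LinearEquiv.ofInjective_apply, hdg]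
      rfl
    have h3 := hg1 (e x)
    rw [h1, h2] at h3
    rw [← h3]
    change g (x, x) = g (x, 0) + g (0, x)
    rw [← map_add]
    simp

/-- the kernel as a function of the distance -/
theorem exists_g (n d : ℕ) (K L : ℝ) (hK : 0 ≤ K) (hL : 0 ≤ L) (h : StarAt n d K L) :
    ∃ g s : ℕ → ℝ, (∀ w, w ≤ n → 0 ≤ g w) ∧ (∀ w, w ≤ n → g w ≤ K) ∧
      (∀ w, w ≤ n → w < d → g w = 0) ∧ (∀ j, j ≤ n → |s j| ≤ L) ∧
      ∀ w, w ≤ n → g w - 1 = (2 ^ n)⁻¹ * ∑ j ∈ Finset.range (n + 1), s j * (kr n j w : ℝ) := by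
  have h2 : (0 : ℝ) < 2 ^ n := by positivity
  obtain ⟨f1, f2, hf1, hf2, hff⟩ := split_functional
    (((2 : ℝ) ^ n) • LinearMap.proj (R := ℝ) (φ := fun _ : Fin (n + 1) => ℝ) (0 : Fin (n + 1)))
    (p1 n d K) (p2 n L) (fun c hc x => p1_smul n d K c hc x) (fun c hc x => p2_smul n L c hc x)
    (p1_add n d K hK) (p2_add n L hL) (by
      intro x
      obtain ⟨l, hl⟩ : ∃ l : ℕ → ℝ, l = fun i => if hi : i < n + 1 then x ⟨i, hi⟩ else 0 := ⟨_, rfl⟩
      have hlx : ∀ i : Fin (n + 1), l i = x i := by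
        intro i
        rw [hl]
        simp only
        rw [dif_pos i.2]
      have h3 := h l
      have e1 : ∀ w, ∑ i ∈ Finset.range (n + 1), l i * (kr n i w : ℝ) = fn n x w := by
        intro w
        unfold fn
        rw [Finset.sum_range]
        exact Finset.sum_congr rfl fun i _ => by rw [hlx]
      have e2 : ∑ j ∈ Finset.range (n + 1), (n.choose j : ℝ) * |l j| =
          ∑ j : Fin (n + 1), (n.choose j : ℝ) * |x j| := by
        rw [Finset.sum_range]
        exact Finset.sum_congr rfl fun i _ => by rw [hlx]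
      simp only [e1, e2] at h3
      have e3 : l 0 = x 0 := hlx 0
      rw [e3] at h3
      change 2 ^ n * x 0 ≤ _
      unfold p1 p2
      exact h3)
  have hff' : ∀ x : Fin (n + 1) → ℝ, 2 ^ n * x 0 = f1 x + f2 x := fun x => hff x
  -- the vectors of coefficients of the indicators
  obtain ⟨lw, hlw⟩ : ∃ lw : ℕ → Fin (n + 1) → ℝ,
      lw = fun (w : ℕ) (j : Fin (n + 1)) => (2 ^ n)⁻¹ * (kr n w (j : ℕ) : ℝ) := ⟨_, rfl⟩
  have hfn : ∀ w w' : ℕ, w' ≤ n → fn n (lw w) w' = if w = w' then 1 else 0 := by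
    intro w w' hw'
    unfold fn
    rw [hlw]
    have e1 := KRAf.inv n w w' hw'
    rw [Finset.sum_range] at e1
    have e2 : ∑ i : Fin (n + 1), (2 ^ n)⁻¹ * (kr n w i : ℝ) * (kr n i w' : ℝ) =
        (2 ^ n)⁻¹ * ∑ i : Fin (n + 1), (kr n w i : ℝ) * (kr n i w' : ℝ) := by
      rw [Finset.mul_sum]
      exact Finset.sum_congr rfl fun i _ => by ring
    rw [e2, e1]
    split_ifs
    · exact inv_mul_cancel₀ h2.ne'
    · rw [mul_zero]
  obtain ⟨g, hg⟩ : ∃ g : ℕ → ℝ, g = fun w => f1 (lw w) / (n.choose w : ℝ) := ⟨_, rfl⟩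
  obtain ⟨ev, hev⟩ : ∃ ev : Fin (n + 1) → Fin (n + 1) → ℝ, ev = fun j => Pi.single j 1 := ⟨_, rfl⟩
  obtain ⟨s, hs⟩ : ∃ s : ℕ → ℝ, s = fun j => if hj : j < n + 1 then
    -(f2 (ev ⟨j, hj⟩) / (n.choose j : ℝ)) else 0 := ⟨_, rfl⟩
  have hch : ∀ w, w ≤ n → (0 : ℝ) < n.choose w := fun w hw => by
    exact_mod_cast Nat.choose_pos hw
  have hp1 : ∀ (c : ℝ) (w : ℕ), w ≤ n → p1 n d K (c • lw w) =
      if d ≤ w then K * ((n.choose w : ℝ) * max c 0) else 0 := by
    intro c w hw
    unfold p1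
    have e1 : ∀ w' ∈ (Finset.range (n + 1)).filter (fun w => d ≤ w),
        (n.choose w' : ℝ) * max (fn n (c • lw w) w') 0 =
          if w = w' then (n.choose w' : ℝ) * max c 0 else 0 := by
      intro w' hw'
      rw [Finset.mem_filter, Finset.mem_range] at hw'
      rw [fn_smul, hfn w w' (by omega)]
      split_ifs
      · rw [mul_one]
      · rw [mul_zero, max_self, mul_zero]
    rw [Finset.sum_congr rfl e1, Finset.sum_ite_eq]
    by_cases hdw : d ≤ w
    · rw [if_pos hdw, if_pos]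
      rw [Finset.mem_filter, Finset.mem_range]
      exact ⟨by omega, hdw⟩
    · rw [if_neg hdw, if_neg, mul_zero]
      rw [Finset.mem_filter]
      exact fun h => hdw h.2
  have hup : ∀ w, w ≤ n → f1 (lw w) ≤ if d ≤ w then K * (n.choose w : ℝ) else 0 := by
    intro w hw
    have e1 := hf1 ((1 : ℝ) • lw w)
    rw [hp1 1 w hw, one_smul] at e1
    refine e1.trans (le_of_eq ?_)
    rw [max_eq_left zero_le_one, mul_one]
  have hlo : ∀ w, w ≤ n → 0 ≤ f1 (lw w) := by
    intro w hw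
    have e1 := hf1 ((-1 : ℝ) • lw w)
    rw [hp1 (-1) w hw, map_smul, smul_eq_mul] at e1
    have e2 : (if d ≤ w then K * ((n.choose w : ℝ) * max (-1 : ℝ) 0) else 0) = 0 := by
      rw [max_eq_right (by norm_num : (-1 : ℝ) ≤ 0)]
      simp
    rw [e2] at e1
    linarith
  refine ⟨g, s, fun w hw => ?_, fun w hw => ?_, fun w hw hwd => ?_, fun j hj => ?_, fun w hw => ?_⟩
  · rw [hg]
    exact div_nonneg (hlo w hw) (hch w hw).le
  · rw [hg]
    change f1 (lw w) / (n.choose w : ℝ) ≤ K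
    rw [div_le_iff₀ (hch w hw)]
    refine (hup w hw).trans ?_
    split_ifs
    · exact le_rfl
    · exact mul_nonneg hK (hch w hw).le
  · have e1 := hup w hw
    rw [if_neg (by omega)] at e1
    rw [hg]
    change f1 (lw w) / (n.choose w : ℝ) = 0
    rw [le_antisymm e1 (hlo w hw), zero_div]
  · have hj' : j < n + 1 := by omega
    have e0 : s j = -(f2 (ev ⟨j, hj'⟩) / (n.choose j : ℝ)) := by
      rw [hs]
      simp only
      rw [dif_pos hj']
    rw [e0, abs_neg, abs_div, abs_of_pos (hch j hj), div_le_iff₀ (hch j hj)]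
    have e1 : ∀ c : ℝ, p2 n L (c • ev ⟨j, hj'⟩) = L * ((n.choose j : ℝ) * |c|) := by
      intro c
      unfold p2
      congr 1
      rw [hev, Finset.sum_eq_single (⟨j, hj'⟩ : Fin (n + 1))]
      · simp
      · intro b _ hb
        simp only [Pi.smul_apply]
        rw [Pi.single_eq_of_ne hb]
        simp
      · intro h
        exact absurd (Finset.mem_univ _) h
    have e2 := hf2 ((1 : ℝ) • ev ⟨j, hj'⟩)
    have e3 := hf2 ((-1 : ℝ) • ev ⟨j, hj'⟩)
    rw [e1, one_smul, abs_one, mul_one] at e2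
    rw [e1, map_smul, smul_eq_mul, abs_neg, abs_one, mul_one] at e3
    rw [abs_le]
    constructor <;> linarith
  · have e1 := hff' (lw w)
    have e2 : (2 : ℝ) ^ n * lw w 0 = n.choose w := by
      rw [hlw]
      simp only [Fin.val_zero]
      rw [KRAf.kr_zero_right, ← mul_assoc, mul_inv_cancel₀ h2.ne', one_mul]
      simp
    rw [e2] at e1
    -- the second functional
    have e3 : f2 (lw w) = ∑ j : Fin (n + 1), lw w j * f2 (ev j) := by
      conv_lhs => rw [show lw w = ∑ j : Fin (n + 1), lw w j • ev j from by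
        rw [hev]
        ext i
        simp [Finset.sum_apply, Pi.single_apply]]
      rw [map_sum]
      refine Finset.sum_congr rfl fun j _ => ?_
      rw [map_smul, smul_eq_mul]
    have e4 : ∀ j : Fin (n + 1), lw w j * f2 (ev j) =
        -((n.choose w : ℝ) * ((2 ^ n)⁻¹ * (s j * (kr n j w : ℝ)))) := by
      intro j
      have hj := j.2
      have e0 : s j = -(f2 (ev j) / (n.choose j : ℝ)) := by
        rw [hs]
        simp only
        rw [dif_pos hj]
      have e5 := CE7f.kr_symm n j w hw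
      have hcj : (0 : ℝ) < n.choose j := hch j (by omega)
      have e6 : (n.choose w : ℝ) * (kr n j w : ℝ) = (n.choose j : ℝ) * (kr n w j : ℝ) := e5.symm
      rw [e0, hlw]
      have e7 : -((n.choose w : ℝ) * ((2 ^ n)⁻¹ * (-(f2 (ev j) / (n.choose j : ℝ)) *
          (kr n j w : ℝ)))) = (2 ^ n)⁻¹ * (f2 (ev j) / (n.choose j : ℝ)) *
          ((n.choose w : ℝ) * (kr n j w : ℝ)) := by ring
      rw [e7, e6]
      field_simp
    rw [e3, Finset.sum_congr rfl fun j _ => e4 j, Finset.sum_neg_distrib, ← Finset.mul_sum,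
      ← Finset.mul_sum] at e1
    have e8 : f1 (lw w) = (n.choose w : ℝ) * g w := by
      rw [hg]
      have := (hch w hw).ne'
      field_simp
    rw [e8] at e1
    have hcw := hch w hw
    have e9 : (n.choose w : ℝ) * (g w - 1) = (n.choose w : ℝ) *
        ((2 ^ n)⁻¹ * ∑ i : Fin (n + 1), s i * (kr n i w : ℝ)) := by
      linarith
    have e10 := mul_left_cancel₀ hcw.ne' e9
    rw [e10, Finset.sum_range]

end Pool.Agent.Y570.KP
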