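import Mathlib
import Pool.Agent.Y570.KP.Psd
import Pool.Agent.Y570.KP.Dual
import Pool.Agent.TH41.BL.PK9
import Pool.Agent.TH41.BL.CH7

/-!
Y570/KP (helper570, MP_0430e4_lc): kernels on the cube.
-/

set_option autoImplicit false
set_option linter.unusedSectionVars false

namespace Pool.Agent.Y570.KP

open Finset Pool.Agent.TH41.BL

/-- the sums over the characters -/
noncomputable def TT {n : ℕ} (a : (Fin n → Bool) → ℝ) (j : ℕ) : ℝ :=
  ∑ s ∈ Finset.powersetCard j (Finset.univ : Finset (Fin n)), (∑ x, PK9f.chi s x * a x) ^ 2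

lemma TT_nonneg {n : ℕ} (a : (Fin n → Bool) → ℝ) (j : ℕ) : 0 ≤ TT a j :=
  Finset.sum_nonneg fun _ _ => sq_nonneg _

lemma form_eq (hc : S7_chr) {n : ℕ} (t : ℕ → ℝ) (a : (Fin n → Bool) → ℝ) :
    ∑ x, ∑ y, ((2 ^ n)⁻¹ * ∑ j ∈ Finset.range (n + 1), t j * (kr n j (hammingDist x y) : ℝ)) *
      a x * a y = (2 ^ n)⁻¹ * ∑ j ∈ Finset.range (n + 1), t j * TT a j := by
  have e1 : ∀ x y : Fin n → Bool,
      ((2 ^ n)⁻¹ * ∑ j ∈ Finset.range (n + 1), t j * (kr n j (hammingDist x y) : ℝ)) * a x * a y =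
      ∑ j ∈ Finset.range (n + 1), ∑ s ∈ Finset.powersetCard j (Finset.univ : Finset (Fin n)),
        (2 ^ n)⁻¹ * t j * ((PK9f.chi s x * a x) * (PK9f.chi s y * a y)) := by
    intro x y
    rw [Finset.mul_sum, Finset.sum_mul, Finset.sum_mul]
    refine Finset.sum_congr rfl fun j _ => ?_
    rw [PK9f.kr_sum hc, ← Finset.mul_sum]
    have e2 : ∑ s ∈ Finset.powersetCard j (Finset.univ : Finset (Fin n)),
        (PK9f.chi s x * a x) * (PK9f.chi s y * a y) =
        (∑ s ∈ Finset.powersetCard j (Finset.univ : Finset (Fin n)),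
          PK9f.chi s x * PK9f.chi s y) * (a x * a y) := by
      rw [Finset.sum_mul]
      exact Finset.sum_congr rfl fun s _ => by ring
    rw [e2]
    ring
  simp_rw [e1]
  have e3 : ∀ x : Fin n → Bool, ∑ y : Fin n → Bool, ∑ j ∈ Finset.range (n + 1),
      ∑ s ∈ Finset.powersetCard j (Finset.univ : Finset (Fin n)),
        (2 ^ n)⁻¹ * t j * ((PK9f.chi s x * a x) * (PK9f.chi s y * a y)) =
      ∑ j ∈ Finset.range (n + 1), ∑ s ∈ Finset.powersetCard j (Finset.univ : Finset (Fin n)),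
        (2 ^ n)⁻¹ * t j * ((PK9f.chi s x * a x) * ∑ y, PK9f.chi s y * a y) := by
    intro x
    rw [Finset.sum_comm]
    refine Finset.sum_congr rfl fun j _ => ?_
    rw [Finset.sum_comm]
    refine Finset.sum_congr rfl fun s _ => ?_
    rw [← Finset.mul_sum, ← Finset.mul_sum]
  rw [Finset.sum_congr rfl fun x _ => e3 x, Finset.sum_comm, Finset.mul_sum]
  refine Finset.sum_congr rfl fun j _ => ?_
  rw [Finset.sum_comm]
  unfold TT
  rw [Finset.mul_sum, Finset.mul_sum]
  refine Finset.sum_congr rfl fun s _ => ?_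
  rw [← Finset.mul_sum, ← Finset.sum_mul]
  ring

lemma parseval (hc : S7_chr) {n : ℕ} (a : (Fin n → Bool) → ℝ) :
    (2 ^ n)⁻¹ * ∑ j ∈ Finset.range (n + 1), TT a j = ∑ x, a x ^ 2 := by
  have h1 := form_eq hc (fun _ => 1) a
  simp only [one_mul] at h1
  rw [← h1]
  refine Finset.sum_congr rfl fun x _ => ?_
  have h2 : ∀ y : Fin n → Bool, ((2 : ℝ) ^ n)⁻¹ *
      ∑ j ∈ Finset.range (n + 1), (kr n j (hammingDist x y) : ℝ) = if x = y then 1 else 0 := by
    intro y
    have h3 := KRAf.inv n 0 (hammingDist x y) (PK9f.hd_le x y)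
    have h4 : ∀ j ∈ Finset.range (n + 1), (kr n 0 j : ℝ) * (kr n j (hammingDist x y) : ℝ) =
        (kr n j (hammingDist x y) : ℝ) := by
      intro j _
      have : (kr n 0 j : ℝ) = 1 := by simp [kr]
      rw [this, one_mul]
    rw [Finset.sum_congr rfl h4] at h3
    rw [h3]
    by_cases hxy : x = y
    · subst hxy
      rw [hammingDist_self, if_pos rfl, if_pos rfl]
      exact inv_mul_cancel₀ (by positivity)
    · rw [if_neg hxy, if_neg, mul_zero]
      intro h5
      exact hxy (hammingDist_eq_zero.1 h5.symm)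
  simp_rw [h2]
  simp only [ite_mul, one_mul, zero_mul]
  rw [Finset.sum_ite_eq, if_pos (Finset.mem_univ x)]
  ring

/-- the kernel of the inequality -/
theorem good_of_star (hc : S7_chr) (n d : ℕ) (K L : ℝ) (hK : 0 ≤ K) (hL : 0 ≤ L) (hd : 1 ≤ d)
    (h : StarAt n d K L) :
    ∃ G : (Fin n → Bool) → (Fin n → Bool) → ℝ, Good G K L ∧
      ∀ x y, hammingDist x y < d → G x y = 0 := by
  obtain ⟨g, s, h1, h2, h3, h4, h5⟩ := exists_g n d K L hK hL h
  refine ⟨fun x y => g (hammingDist x y), ⟨?_, ?_, ?_, ?_, ?_⟩, ?_⟩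
  · intro x y
    change g (hammingDist x y) = g (hammingDist y x)
    rw [hammingDist_comm]
  · intro x
    change g (hammingDist x x) = 0
    rw [hammingDist_self]
    exact h3 0 (Nat.zero_le _) (by omega)
  · intro x y
    exact h1 _ (PK9f.hd_le x y)
  · intro x y
    exact h2 _ (PK9f.hd_le x y)
  · intro a
    have e1 : ∑ x, ∑ y, (g (hammingDist x y) - 1) * a x * a y =
        (2 ^ n)⁻¹ * ∑ j ∈ Finset.range (n + 1), s j * TT a j := by
      rw [← form_eq hc s a]
      refine Finset.sum_congr rfl fun x _ => Finset.sum_congr rfl fun y _ => ?_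
      rw [h5 _ (PK9f.hd_le x y)]
    rw [e1, abs_mul, abs_of_pos (by positivity : (0 : ℝ) < (2 ^ n)⁻¹), ← parseval hc a]
    calc (2 ^ n)⁻¹ * |∑ j ∈ Finset.range (n + 1), s j * TT a j|
        ≤ (2 ^ n)⁻¹ * ∑ j ∈ Finset.range (n + 1), L * TT a j := by
          refine mul_le_mul_of_nonneg_left ?_ (by positivity)
          refine (Finset.abs_sum_le_sum_abs _ _).trans (Finset.sum_le_sum fun j hj => ?_)
          rw [abs_mul, abs_of_nonneg (TT_nonneg a j)]
          refine mul_le_mul_of_nonneg_right (h4 j ?_) (TT_nonneg a j)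
          have := Finset.mem_range.1 hj
          omega
      _ = L * ((2 ^ n)⁻¹ * ∑ j ∈ Finset.range (n + 1), TT a j) := by
          rw [← Finset.mul_sum]
          ring
  · intro x y hxy
    exact h3 _ (PK9f.hd_le x y) hxy

lemma hd_restrict {n r : ℕ} (x y : Fin (n + r) → Bool) :
    hammingDist (fun i => x (Fin.castAdd r i)) (fun i => y (Fin.castAdd r i)) ≤
      hammingDist x y := by
  unfold hammingDist
  refine Finset.card_le_card_of_injOn (Fin.castAdd r) ?_ ?_
  · intro i hi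
    simp only [Finset.coe_filter, Finset.mem_univ, true_and, Set.mem_ofPred_eq] at hi ⊢
    exact hi
  · intro i _ j _ hij
    exact Fin.castAdd_injective n r hij

/-- the kernel for longer words -/
theorem good_extend (n r d : ℕ) (K L : ℝ) (hL : 0 ≤ L)
    (G : (Fin n → Bool) → (Fin n → Bool) → ℝ) (hG : Good G K L)
    (hd : ∀ x y, hammingDist x y < d → G x y = 0) :
    ∃ G' : (Fin (n + r) → Bool) → (Fin (n + r) → Bool) → ℝ, Good G' K (2 ^ r * L) ∧
      ∀ x y, hammingDist x y < d → G' x y = 0 := by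
  refine ⟨fun x y => G (fun i => x (Fin.castAdd r i)) (fun i => y (Fin.castAdd r i)),
    ⟨fun x y => hG.symm _ _, fun x => hG.diag _, fun x y => hG.nonneg _ _,
    fun x y => hG.le _ _, fun a => ?_⟩, fun x y hxy => hd _ _ ((hd_restrict x y).trans_lt hxy)⟩
  have hsum : ∀ f : (Fin (n + r) → Bool) → ℝ, ∑ x, f x =
      ∑ u : Fin n → Bool, ∑ t : Fin r → Bool, f (Fin.append u t) := by
    intro f
    rw [← Fintype.sum_prod_type']
    exact (Equiv.sum_comp (Fin.appendEquiv n r) f).symm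
  obtain ⟨A, hA⟩ : ∃ A : (Fin n → Bool) → ℝ, A = fun u => ∑ t : Fin r → Bool, a (Fin.append u t) :=
    ⟨_, rfl⟩
  have hres : ∀ (u : Fin n → Bool) (t : Fin r → Bool),
      (fun i => Fin.append u t (Fin.castAdd r i)) = u := by
    intro u t
    ext i
    rw [Fin.append_left]
  have e1 : ∑ x : Fin (n + r) → Bool, ∑ y : Fin (n + r) → Bool,
      (G (fun i => x (Fin.castAdd r i)) (fun i => y (Fin.castAdd r i)) - 1) * a x * a y =
      ∑ u, ∑ v, (G u v - 1) * A u * A v := by
    rw [hsum]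
    refine Finset.sum_congr rfl fun u _ => ?_
    have e2 : ∀ t : Fin r → Bool, ∑ y : Fin (n + r) → Bool,
        (G (fun i => Fin.append u t (Fin.castAdd r i)) (fun i => y (Fin.castAdd r i)) - 1) *
          a (Fin.append u t) * a y =
        a (Fin.append u t) * ∑ v, (G u v - 1) * A v := by
      intro t
      rw [hsum, Finset.mul_sum]
      refine Finset.sum_congr rfl fun v _ => ?_
      rw [hA, hres]
      simp only [hres]
      rw [Finset.mul_sum, Finset.mul_sum]
      refine Finset.sum_congr rfl fun t' _ => ?_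
      ring
    rw [Finset.sum_congr rfl fun t _ => e2 t, ← Finset.sum_mul]
    have e3 : A u = ∑ t : Fin r → Bool, a (Fin.append u t) := by rw [hA]
    rw [← e3, Finset.mul_sum]
    refine Finset.sum_congr rfl fun v _ => ?_
    ring
  rw [e1]
  refine (hG.quad A).trans ?_
  have e4 : ∑ u, A u ^ 2 ≤ 2 ^ r * ∑ x, a x ^ 2 := by
    rw [hsum, Finset.mul_sum]
    refine Finset.sum_le_sum fun u _ => ?_
    rw [hA]
    have e5 := sq_sum_le_card_mul_sum_sq (s := (Finset.univ : Finset (Fin r → Bool)))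
      (f := fun t => a (Fin.append u t))
    have e6 : ((Finset.univ : Finset (Fin r → Bool)).card : ℝ) = 2 ^ r := by
      rw [Finset.card_univ, Fintype.card_fun, Fintype.card_bool, Fintype.card_fin]
      push_cast
      ring
    rw [e6] at e5
    exact e5
  calc L * ∑ u, A u ^ 2 ≤ L * (2 ^ r * ∑ x, a x ^ 2) := mul_le_mul_of_nonneg_left e4 hL
    _ = 2 ^ r * L * ∑ x, a x ^ 2 := by ring

end Pool.Agent.Y570.KP
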