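import Mathlib
import Pool.Agent.Y570.KP.Cond
import Pool.Agent.Y570.KP.Asym

/-!
Y570/KP (helper570, MP_0430e4_lc): the `k`-point semidefinite bounds.
-/

set_option autoImplicit false
set_option linter.unusedSectionVars false

open Filter Topology

namespace Pool.Agent.Y570.KP

open Pool.Agent.TH41.BL

/-- pseudo-codes of level `k` -/
structure PC (n d k : ℕ) (y : Finset (Fin n → Bool) → ℝ) : Prop where
  one : y ∅ = 1
  dist : ∀ S : Finset (Fin n → Bool), ∀ u ∈ S, ∀ v ∈ S, u ≠ v → hammingDist u v < d → y S = 0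
  nonneg : ∀ D E : Finset (Fin n → Bool), D.card + E.card ≤ k → 0 ≤ cond y D E ∅
  psd : ∀ D E : Finset (Fin n → Bool), D.card + E.card + 2 ≤ k →
    ∀ a : Option (Fin n → Bool) → ℝ,
      0 ≤ ∑ s, ∑ t, a s * a t * cond y D E (s.toFinset ∪ t.toFinset)

/-- the weighted optimum -/
noncomputable def SW (n d k : ℕ) (w : (Fin n → Bool) → ℝ) : ℝ :=
  sSup {v : ℝ | ∃ y, PC n d k y ∧ v = ∑ x, w x * y {x}}

variable {n d k : ℕ}

lemma cond_empty (y : Finset (Fin n → Bool) → ℝ) (D S : Finset (Fin n → Bool)) :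
    cond y D ∅ S = y (D ∪ S) := by
  unfold cond
  simp

lemma PC.one_le {y : Finset (Fin n → Bool) → ℝ} (h : PC n d k y) (hk : 1 ≤ k)
    (x : Fin n → Bool) : 0 ≤ y {x} ∧ y {x} ≤ 1 := by
  constructor
  · have h1 := h.nonneg {x} ∅ (by simpa using hk)
    rw [cond_empty, Finset.union_empty] at h1
    exact h1
  · have h1 := h.nonneg ∅ {x} (by simpa using hk)
    unfold cond at h1
    have hps : ({x} : Finset (Fin n → Bool)).powerset = {∅, {x}} := by
      ext F
      simp only [Finset.mem_powerset, Finset.mem_insert, Finset.mem_singleton]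
      exact Finset.subset_singleton_iff
    rw [hps, Finset.sum_pair (Finset.singleton_ne_empty x).symm] at h1
    simp only [Finset.card_empty, pow_zero, Finset.empty_union, Finset.union_empty,
      Finset.card_singleton, pow_one, h.one] at h1
    linarith

lemma bdd_SW (hk : 1 ≤ k) {w : (Fin n → Bool) → ℝ} (hw : ∀ x, 0 ≤ w x) :
    BddAbove {v : ℝ | ∃ y, PC n d k y ∧ v = ∑ x, w x * y {x}} := by
  refine ⟨∑ x, w x, ?_⟩
  rintro v ⟨y, hy, rfl⟩
  refine Finset.sum_le_sum fun x _ => ?_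
  have := (hy.one_le hk x).2
  exact mul_le_of_le_one_right (hw x) this

/-- the indicator of a code -/
lemma pc_code (C : Finset (Fin n → Bool)) (hC : ∀ x ∈ C, ∀ y ∈ C, x ≠ y → d ≤ hammingDist x y) :
    PC n d k (fun S => if S ⊆ C then 1 else 0) := by
  classical
  have hcond : ∀ D E S : Finset (Fin n → Bool),
      cond (fun S => if S ⊆ C then (1 : ℝ) else 0) D E S =
        if Disjoint E C ∧ D ⊆ C ∧ S ⊆ C then 1 else 0 := by
    intro D E S
    by_cases hE : Disjoint E C
    · unfold cond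
      rw [Finset.sum_eq_single ∅]
      · simp only [Finset.card_empty, pow_zero, one_mul, Finset.union_empty,
          Finset.union_subset_iff]
        by_cases h : D ⊆ C ∧ S ⊆ C
        · rw [if_pos h, if_pos ⟨hE, h⟩]
        · rw [if_neg h, if_neg fun h' => h h'.2]
      · intro F hF hne
        rw [Finset.mem_powerset] at hF
        simp only
        rw [if_neg, mul_zero]
        intro hsub
        obtain ⟨f, hf⟩ := Finset.nonempty_iff_ne_empty.2 hne
        exact Finset.disjoint_left.1 hE (hF hf) (hsub (by simp [hf]))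
      · intro h
        exact absurd (Finset.empty_mem_powerset E) h
    · rw [if_neg fun h => hE h.1]
      obtain ⟨e, heE, heC⟩ := Finset.not_disjoint_iff.1 hE
      unfold cond
      obtain ⟨E', hE', rfl⟩ : ∃ E', e ∉ E' ∧ insert e E' = E :=
        ⟨E.erase e, Finset.notMem_erase e E, Finset.insert_erase heE⟩
      rw [Finset.sum_powerset_insert hE', ← Finset.sum_add_distrib]
      refine Finset.sum_eq_zero fun F hF => ?_
      have hF' : e ∉ F := fun h' => hE' (Finset.mem_powerset.1 hF h')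
      rw [Finset.card_insert_of_notMem hF', pow_succ]
      have h1 : D ∪ insert e F ∪ S ⊆ C ↔ D ∪ F ∪ S ⊆ C := by
        simp only [Finset.union_subset_iff, Finset.insert_subset_iff]
        tauto
      simp only [h1]
      ring
  refine ⟨by simp, ?_, ?_, ?_⟩
  · intro S u hu v hv huv hd
    rw [if_neg]
    intro hS
    have := hC u (hS hu) v (hS hv) huv
    omega
  · intro D E _
    rw [hcond]
    split_ifs <;> norm_num
  · intro D E _ a
    have h1 : ∀ s t : Option (Fin n → Bool),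
        a s * a t * cond (fun S => if S ⊆ C then (1 : ℝ) else 0) D E (s.toFinset ∪ t.toFinset) =
        (if Disjoint E C ∧ D ⊆ C then 1 else 0) * ((if s.toFinset ⊆ C then a s else 0) *
          (if t.toFinset ⊆ C then a t else 0)) := by
      intro s t
      rw [hcond]
      simp only [Finset.union_subset_iff]
      by_cases h1 : Disjoint E C ∧ D ⊆ C
      · by_cases h2 : s.toFinset ⊆ C
        · by_cases h3 : t.toFinset ⊆ C
          · rw [if_pos ⟨h1.1, h1.2, h2, h3⟩, if_pos h1, if_pos h2, if_pos h3]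
            ring
          · rw [if_neg fun h => h3 h.2.2.2, if_neg h3]
            ring
        · rw [if_neg fun h => h2 h.2.2.1, if_neg h2]
          ring
      · rw [if_neg fun h => h1 ⟨h.1, h.2.1⟩, if_neg h1]
        ring
    simp_rw [h1, ← Finset.mul_sum, ← Finset.sum_mul]
    refine mul_nonneg ?_ (mul_self_nonneg _)
    split_ifs <;> norm_num

lemma code_le (hk : 1 ≤ k) (C : Finset (Fin n → Bool))
    (hC : ∀ x ∈ C, ∀ y ∈ C, x ≠ y → d ≤ hammingDist x y) {w : (Fin n → Bool) → ℝ}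
    (hw : ∀ x, 0 ≤ w x) : ∑ x ∈ C, w x ≤ SW n d k w := by
  refine le_csSup (bdd_SW hk hw) ⟨_, pc_code C hC, ?_⟩
  simp only [Finset.singleton_subset_iff, mul_ite, mul_one, mul_zero]
  rw [Finset.sum_ite_mem, Finset.univ_inter]

lemma PC.mono {k' : ℕ} (hk : k ≤ k') {y : Finset (Fin n → Bool) → ℝ} (h : PC n d k' y) :
    PC n d k y :=
  ⟨h.one, h.dist, fun D E hDE => h.nonneg D E (by omega), fun D E hDE => h.psd D E (by omega)⟩

/-- comparison with the linear program -/
lemma PC.le_lp (hc : S7_chr) (hk : 2 ≤ k) {y : Finset (Fin n → Bool) → ℝ} (h : PC n d k y)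
    {l : ℕ → ℝ} (hl : Feas n d l) : ∑ x, y {x} ≤ Vl n l / l 0 := by
  obtain ⟨m, hm⟩ : ∃ m : ℝ, m = ∑ x, y {x} := ⟨_, rfl⟩
  rw [← hm, le_div_iff₀ hl.2.1]
  have hm0 : 0 ≤ m := by
    rw [hm]
    exact Finset.sum_nonneg fun x _ => (h.one_le (by omega) x).1
  have hVl0 : 0 ≤ Vl n l := by
    unfold Vl
    exact Finset.sum_nonneg fun j _ => mul_nonneg (hl.1 j) (Nat.cast_nonneg _)
  rcases hm0.eq_or_lt with h0 | h0
  · rw [← h0, zero_mul]
    exact hVl0
  obtain ⟨Y, hY⟩ : ∃ Y : (Fin n → Bool) → (Fin n → Bool) → ℝ, Y = fun x z => y ({x} ∪ {z}) :=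
    ⟨_, rfl⟩
  have hpsd : ∀ (c : ℝ) (b : (Fin n → Bool) → ℝ), 0 ≤ c ^ 2 + 2 * c * ∑ x, b x * y {x} +
      ∑ x, ∑ z, b x * b z * Y x z := by
    intro c b
    have h1 := h.psd ∅ ∅ (by simpa using hk) (fun s => s.elim c b)
    simp only [cond_empty, Finset.empty_union, Fintype.sum_option, Option.toFinset_none,
      Option.toFinset_some, Option.elim_none, Option.elim_some, Finset.union_empty, h.one] at h1
    refine h1.trans (le_of_eq ?_)
    rw [hY, Finset.mul_sum, Finset.sum_add_distrib]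
    have e1 : ∑ x, c * b x * y {x} = ∑ x, b x * c * y {x} :=
      Finset.sum_congr rfl fun x _ => by ring
    have e2 : ∑ x, 2 * c * (b x * y {x}) = ∑ x, b x * c * y {x} + ∑ x, b x * c * y {x} := by
      rw [← Finset.sum_add_distrib]
      exact Finset.sum_congr rfl fun x _ => by ring
    rw [e1, e2]
    ring
  -- the sum of all entries
  have hsq : m ^ 2 ≤ ∑ x, ∑ z, Y x z := by
    have h1 := hpsd (-m) (fun _ => 1)
    simp only [one_mul] at h1
    rw [← hm] at h1
    nlinarith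
  -- the nonnegativity
  have hY0 : ∀ x z, 0 ≤ Y x z := by
    intro x z
    have h1 := h.nonneg ({x} ∪ {z}) ∅ (by
      have := Finset.card_union_le {x} {z}
      simp only [Finset.card_singleton, Finset.card_empty] at this ⊢
      omega)
    rw [cond_empty, Finset.union_empty] at h1
    rw [hY]
    exact h1
  have hYd : ∀ x z, x ≠ z → hammingDist x z < d → Y x z = 0 := by
    intro x z hxz hd
    rw [hY]
    exact h.dist _ x (by simp) z (by simp) hxz hd
  have hYx : ∀ x, Y x x = y {x} := by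
    intro x
    rw [hY]
    simp
  -- the characters
  have hch : ∀ j, 0 ≤ ∑ x, ∑ z, (kr n j (hammingDist x z) : ℝ) * Y x z := by
    intro j
    have e1 : ∑ x, ∑ z, (kr n j (hammingDist x z) : ℝ) * Y x z =
        ∑ s ∈ Finset.powersetCard j (Finset.univ : Finset (Fin n)),
          ∑ x, ∑ z, PK9f.chi s x * PK9f.chi s z * Y x z := by
      rw [Finset.sum_comm (s := Finset.powersetCard j (Finset.univ : Finset (Fin n)))]
      refine Finset.sum_congr rfl fun x _ => ?_
      rw [Finset.sum_comm (s := Finset.powersetCard j (Finset.univ : Finset (Fin n)))]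
      refine Finset.sum_congr rfl fun z _ => ?_
      rw [PK9f.kr_sum hc, Finset.sum_mul]
    rw [e1]
    refine Finset.sum_nonneg fun s _ => ?_
    have h1 := hpsd 0 (PK9f.chi s)
    have e2 : (0 : ℝ) ^ 2 + 2 * 0 * ∑ x, PK9f.chi s x * y {x} = 0 := by ring
    rw [e2, zero_add] at h1
    exact h1
  have hk0 : ∀ w, (kr n 0 w : ℝ) = 1 := by
    intro w
    simp [kr]
  have h3 : l 0 * ∑ x, ∑ z, Y x z ≤
      ∑ j ∈ Finset.range (n + 1), l j * ∑ x, ∑ z, (kr n j (hammingDist x z) : ℝ) * Y x z := by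
    rw [Finset.sum_range_succ']
    simp only [hk0, one_mul]
    have h4 : 0 ≤ ∑ j ∈ Finset.range n, l (j + 1) *
        ∑ x, ∑ z, (kr n (j + 1) (hammingDist x z) : ℝ) * Y x z :=
      Finset.sum_nonneg fun j _ => mul_nonneg (hl.1 _) (hch _)
    linarith
  have h5 : ∑ j ∈ Finset.range (n + 1), l j * ∑ x, ∑ z, (kr n j (hammingDist x z) : ℝ) * Y x z =
      ∑ x, ∑ z, (∑ j ∈ Finset.range (n + 1), l j * (kr n j (hammingDist x z) : ℝ)) * Y x z := by
    simp_rw [Finset.mul_sum, Finset.sum_mul]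
    rw [Finset.sum_comm]
    refine Finset.sum_congr rfl fun x _ => ?_
    rw [Finset.sum_comm]
    refine Finset.sum_congr rfl fun z _ => Finset.sum_congr rfl fun j _ => ?_
    ring
  have h6 : ∑ x, ∑ z, (∑ j ∈ Finset.range (n + 1), l j * (kr n j (hammingDist x z) : ℝ)) * Y x z ≤
      m * Vl n l := by
    rw [hm, Finset.sum_mul]
    refine Finset.sum_le_sum fun x _ => ?_
    rw [← Finset.add_sum_erase _ _ (Finset.mem_univ x)]
    have h7 : ∑ j ∈ Finset.range (n + 1), l j * (kr n j (hammingDist x x) : ℝ) = Vl n l := by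
      rw [FINf.Vl_eq, hammingDist_self]
    rw [h7, hYx]
    have h8 : ∑ z ∈ Finset.univ.erase x,
        (∑ j ∈ Finset.range (n + 1), l j * (kr n j (hammingDist x z) : ℝ)) * Y x z ≤ 0 := by
      refine Finset.sum_nonpos fun z hz => ?_
      rw [Finset.mem_erase] at hz
      by_cases hd : hammingDist x z < d
      · rw [hYd x z hz.1.symm hd, mul_zero]
      · exact mul_nonpos_of_nonpos_of_nonneg
          (hl.2.2 _ (by omega) (PK9f.hd_le x z)) (hY0 x z)
    linarith
  rw [h5] at h3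
  have h9 : l 0 * m ^ 2 ≤ l 0 * ∑ x, ∑ z, Y x z := mul_le_mul_of_nonneg_left hsq hl.2.1.le
  have h10 : m * (m * l 0) ≤ m * Vl n l := by
    calc m * (m * l 0) = l 0 * m ^ 2 := by ring
      _ ≤ m * Vl n l := h9.trans (h3.trans h6)
  exact le_of_mul_le_mul_left h10 h0

/-- pseudo-codes from kernels -/
lemma pc_of_good {G : (Fin n → Bool) → (Fin n → Bool) → ℝ} {K L ρ : ℝ} (hG : Good G K L)
    (hd : ∀ u v, hammingDist u v < d → G u v = 0) (hS : Small K L ρ k) :
    PC n d k (yy ρ G) := by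
  refine ⟨yy_empty, ?_, fun D E hDE => nonneg_all hG hS D E hDE,
    fun D E hDE => psd_all hG hS D E (by omega)⟩
  intro S u hu v hv huv hlt
  unfold yy pr
  have : ∏ p ∈ S.offDiag, √(G p.1 p.2) = 0 := by
    refine Finset.prod_eq_zero (i := (u, v)) (Finset.mem_offDiag.2 ⟨hu, hv, huv⟩) ?_
    rw [hd u v hlt, Real.sqrt_zero]
  rw [this, mul_zero]

lemma yy_single (ρ : ℝ) (G : (Fin n → Bool) → (Fin n → Bool) → ℝ) (x : Fin n → Bool) :
    yy ρ G {x} = ρ := by
  unfold yy pr
  simp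

lemma Good.one_le {X : Type} [Fintype X] [DecidableEq X] [Nonempty X] {G : X → X → ℝ} {K L : ℝ}
    (h : Good G K L) : 1 ≤ L := by
  obtain ⟨x⟩ := (inferInstance : Nonempty X)
  have h1 := h.quad (fun z => if z = x then 1 else 0)
  have h2 : ∑ z, (if z = x then (1 : ℝ) else 0) ^ 2 = 1 := by
    simp
  have h3 : ∑ u, ∑ v, (G u v - 1) * (if u = x then (1 : ℝ) else 0) * (if v = x then 1 else 0) =
      -1 := by
    simp [h.diag]
  rw [h2, h3] at h1
  simpa using h1

/-- the lower bound -/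
theorem lower (hk : 1 ≤ k) {δ x : ℝ} (h : Ke δ x) (ε : ℝ) (hε : 0 < ε) :
    ∃ n₀ : ℕ, ∀ n : ℕ, n₀ ≤ n → ∀ d : ℕ, 1 ≤ d → (d : ℝ) ≤ δ * n + 1 →
      ∀ w : (Fin n → Bool) → ℝ, (∀ u, 0 ≤ w u) →
      Real.exp (n * (x - ε)) * ∑ u, w u ≤ 2 ^ n * SW n d k w := by
  obtain ⟨ε', hε'⟩ : ∃ ε' : ℝ, ε' = ε / (2 * (4 * k + 1)) := ⟨_, rfl⟩
  have hk0 : (0 : ℝ) ≤ k := Nat.cast_nonneg k
  have hε'0 : 0 < ε' := by rw [hε']; positivity
  have hεe : (4 * k + 1) * ε' = ε / 2 := by
    rw [hε']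
    field_simp
  obtain ⟨n₀, hn₀⟩ := h ε' hε'0
  obtain ⟨c, hc⟩ : ∃ c : ℝ, c = 2 ^ (k + 4) * ((k : ℝ) ^ 2 + 1) := ⟨_, rfl⟩
  have hc0 : 0 < c := by rw [hc]; positivity
  obtain ⟨n₁, hn₁⟩ := exists_nat_ge (2 * c / ε)
  refine ⟨max n₀ n₁, fun n hn d hd1 hd w hw => ?_⟩
  obtain ⟨G, hG, hGd⟩ := hn₀ n (le_trans (le_max_left _ _) hn) d hd1 hd
  have hn1 : (n₁ : ℝ) ≤ n := by exact_mod_cast le_trans (le_max_right _ _) hn
  have hnp : (0 : ℝ) ≤ n := Nat.cast_nonneg n
  obtain ⟨K, hK⟩ : ∃ K : ℝ, K = Real.exp (n * ε') := ⟨_, rfl⟩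
  obtain ⟨L, hL⟩ : ∃ L : ℝ, L = Real.exp (n * (Real.log 2 - x + ε')) := ⟨_, rfl⟩
  rw [← hK, ← hL] at hG
  have hK1 : 1 ≤ K := by
    rw [hK]
    exact Real.one_le_exp (by positivity)
  have hK0 : 0 < K := by linarith
  have hL0 : 0 < L := by rw [hL]; exact Real.exp_pos _
  have hL1 : 1 ≤ L := hG.one_le
  obtain ⟨ρ, hρ⟩ : ∃ ρ : ℝ, ρ = (c * K ^ (4 * k) * L)⁻¹ := ⟨_, rfl⟩
  have hρ0 : 0 < ρ := by rw [hρ]; positivity
  have hS : Small K L ρ k := by
    refine ⟨hK1, hL1, hρ0, le_of_eq ?_⟩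
    rw [← hc, hρ]
    field_simp
  have hpc := pc_of_good (d := d) hG hGd hS
  have hval : ρ * ∑ u, w u ≤ SW n d k w := by
    refine le_csSup (bdd_SW hk hw) ⟨_, hpc, ?_⟩
    rw [Finset.mul_sum]
    refine Finset.sum_congr rfl fun u _ => ?_
    rw [yy_single]
    ring
  have hw0 : 0 ≤ ∑ u, w u := Finset.sum_nonneg fun u _ => hw u
  have hexp : Real.exp (n * (x - ε)) ≤ 2 ^ n * ρ := by
    have h2 : (2 : ℝ) ^ n = Real.exp (n * Real.log 2) := by
      rw [Real.exp_nat_mul, Real.exp_log two_pos]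
    have h3 : c ≤ Real.exp (n * (ε / 2)) := by
      have h4 : 2 * c / ε ≤ n := hn₁.trans hn1
      rw [div_le_iff₀ hε] at h4
      have h5 := Real.add_one_le_exp (n * (ε / 2))
      linarith
    have h6 : c * K ^ (4 * k) * L ≤ Real.exp (n * (Real.log 2 - x + ε)) := by
      have h7 : K ^ (4 * k) = Real.exp (n * (4 * k * ε')) := by
        rw [hK, ← Real.exp_nat_mul]
        congr 1
        push_cast
        ring
      calc c * K ^ (4 * k) * L ≤ Real.exp (n * (ε / 2)) * K ^ (4 * k) * L := by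
            refine mul_le_mul_of_nonneg_right (mul_le_mul_of_nonneg_right h3 ?_) hL0.le
            positivity
        _ = Real.exp (n * (Real.log 2 - x + ε)) := by
            rw [h7, hL, ← Real.exp_add, ← Real.exp_add]
            congr 1
            have : n * (ε / 2) + n * (4 * k * ε') + n * (Real.log 2 - x + ε') =
              n * (Real.log 2 - x + ε / 2 + (4 * k + 1) * ε') := by ring
            rw [this, hεe]
            ring
    rw [hρ, h2, ← div_eq_mul_inv, le_div_iff₀ (by positivity)]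
    calc Real.exp (n * (x - ε)) * (c * K ^ (4 * k) * L)
        ≤ Real.exp (n * (x - ε)) * Real.exp (n * (Real.log 2 - x + ε)) :=
          mul_le_mul_of_nonneg_left h6 (Real.exp_pos _).le
      _ = Real.exp (n * Real.log 2) := by
          rw [← Real.exp_add]
          congr 1
          ring
  calc Real.exp (n * (x - ε)) * ∑ u, w u ≤ 2 ^ n * ρ * ∑ u, w u :=
        mul_le_mul_of_nonneg_right hexp hw0
    _ = 2 ^ n * (ρ * ∑ u, w u) := by ring
    _ ≤ 2 ^ n * SW n d k w := mul_le_mul_of_nonneg_left hval (by positivity)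

end Pool.Agent.Y570.KP
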