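import Mathlib
import Pool.Agent.Y570.KP.Main

/-!
Y570/KP (helper570, MP_0430e4_lc): translations of pseudo-codes.
-/

set_option autoImplicit false
set_option linter.unusedSectionVars false

open Filter Topology

namespace Pool.Agent.Y570.KP

open Pool.Agent.TH41.BL

variable {n d k : ℕ}

lemma cond_map (σ : Equiv.Perm (Fin n → Bool)) (y : Finset (Fin n → Bool) → ℝ)
    (D E S : Finset (Fin n → Bool)) :
    cond (fun S => y (S.map σ.toEmbedding)) D E S =
      cond y (D.map σ.toEmbedding) (E.map σ.toEmbedding) (S.map σ.toEmbedding) := by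
  unfold cond
  refine Finset.sum_nbij' (fun F => F.map σ.toEmbedding) (fun F => F.map σ.symm.toEmbedding)
    ?_ ?_ ?_ ?_ ?_
  · intro F hF
    rw [Finset.mem_powerset] at hF ⊢
    exact Finset.map_subset_map.2 hF
  · intro F hF
    rw [Finset.mem_powerset] at hF ⊢
    intro x hx
    rw [Finset.mem_map] at hx
    obtain ⟨z, hz, rfl⟩ := hx
    have := hF hz
    rw [Finset.mem_map] at this
    obtain ⟨w, hw, rfl⟩ := this
    simpa using hw
  · intro F _
    ext x
    simp
  · intro F _
    ext x
    simp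
  · intro F _
    simp only [Finset.card_map, Finset.map_union]

lemma PC.map (σ : Equiv.Perm (Fin n → Bool))
    (hσ : ∀ u v, hammingDist (σ u) (σ v) = hammingDist u v) {y : Finset (Fin n → Bool) → ℝ}
    (h : PC n d k y) : PC n d k (fun S => y (S.map σ.toEmbedding)) := by
  refine ⟨by simpa using h.one, ?_, ?_, ?_⟩
  · intro S u hu v hv huv hlt
    refine h.dist _ (σ u) ?_ (σ v) ?_ (fun he => huv (σ.injective he)) (by rwa [hσ])
    · exact Finset.mem_map_of_mem σ.toEmbedding hu
    · exact Finset.mem_map_of_mem σ.toEmbedding hv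
  · intro D E hDE
    rw [cond_map, Finset.map_empty]
    exact h.nonneg _ _ (by rwa [Finset.card_map, Finset.card_map])
  · intro D E hDE a
    have h1 := h.psd (D.map σ.toEmbedding) (E.map σ.toEmbedding)
      (by rwa [Finset.card_map, Finset.card_map]) (fun s => a ((Equiv.optionCongr σ).symm s))
    refine h1.trans (le_of_eq ?_)
    rw [← Equiv.sum_comp (Equiv.optionCongr σ)]
    refine Finset.sum_congr rfl fun s _ => ?_
    rw [← Equiv.sum_comp (Equiv.optionCongr σ)]
    refine Finset.sum_congr rfl fun t _ => ?_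
    rw [Equiv.symm_apply_apply, Equiv.symm_apply_apply, cond_map]
    have h2 : ∀ s : Option (Fin n → Bool), ((Equiv.optionCongr σ) s).toFinset =
        s.toFinset.map σ.toEmbedding := by
      intro s
      cases s <;> simp
    rw [h2, h2, Finset.map_union]

/-- the translation by `u` -/
def tr' (u : Fin n → Bool) : Equiv.Perm (Fin n → Bool) where
  toFun x := fun i => xor (x i) (u i)
  invFun x := fun i => xor (x i) (u i)
  left_inv x := by ext i; simp
  right_inv x := by ext i; simp

lemma tr'_dist (u x z : Fin n → Bool) : hammingDist (tr' u x) (tr' u z) = hammingDist x z := by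
  unfold hammingDist
  congr 1
  ext i
  simp [tr']

lemma sum_tr' (y : (Fin n → Bool) → ℝ) (x : Fin n → Bool) : ∑ u, y (tr' u x) = ∑ z, y z := by
  have h1 : ∀ u, tr' u x = tr' x u := by
    intro u
    ext i
    simp [tr', Bool.xor_comm]
  simp_rw [h1]
  exact Equiv.sum_comp (tr' x) y

/-- the uniform weights are optimal -/
theorem weight (hk : 1 ≤ k) {w : (Fin n → Bool) → ℝ} (hw : ∀ x, 0 ≤ w x)
    {y : Finset (Fin n → Bool) → ℝ} (h : PC n d k y) :
    (∑ x, y {x}) * ∑ x, w x ≤ 2 ^ n * SW n d k w := by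
  have h1 : ∀ u : Fin n → Bool, ∑ x, w x * y {tr' u x} ≤ SW n d k w := by
    intro u
    refine le_csSup (bdd_SW hk hw) ⟨_, h.map (tr' u) (tr'_dist u), ?_⟩
    refine Finset.sum_congr rfl fun x _ => ?_
    rw [Finset.map_singleton]
    rfl
  have h2 := Finset.sum_le_sum fun (u : Fin n → Bool) (_ : u ∈ Finset.univ) => h1 u
  rw [Finset.sum_comm, Finset.sum_const, nsmul_eq_mul] at h2
  have h3 : ∀ x, ∑ u, w x * y {tr' u x} = w x * ∑ z, y {z} := by
    intro x
    rw [← Finset.mul_sum]
    congr 1
    exact sum_tr' (fun z => y {z}) x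
  rw [Finset.sum_congr rfl fun x _ => h3 x, ← Finset.sum_mul] at h2
  have h4 : ((Finset.univ : Finset (Fin n → Bool)).card : ℝ) = 2 ^ n := by
    rw [Finset.card_univ, Fintype.card_fun, Fintype.card_bool, Fintype.card_fin]
    push_cast
    ring
  rw [h4] at h2
  linarith

/-- codes in a set of words (Elias and Bassalygo) -/
theorem elias (hk : 1 ≤ k) {w : (Fin n → Bool) → ℝ} (hw : ∀ x, 0 ≤ w x)
    (C : Finset (Fin n → Bool)) (hC : ∀ x ∈ C, ∀ y ∈ C, x ≠ y → d ≤ hammingDist x y) :
    (C.card : ℝ) * ∑ x, w x ≤ 2 ^ n * SW n d k w := by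
  have h1 := weight hk hw (pc_code (n := n) (d := d) (k := k) C hC)
  simp only [Finset.singleton_subset_iff] at h1
  have h2 : ∑ x : Fin n → Bool, (if x ∈ C then (1 : ℝ) else 0) = C.card := by
    rw [Finset.sum_ite_mem, Finset.univ_inter]
    simp
  rw [h2] at h1
  exact h1

end Pool.Agent.Y570.KP
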