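import Mathlib
import Pool.Agent.Y570.KP.Shift

/-!
Y570/KP (helper570, MP_0430e4_lc): the hierarchy is complete.
-/

set_option autoImplicit false
set_option linter.unusedSectionVars false

open Filter Topology

namespace Pool.Agent.Y570.KP

open Pool.Agent.TH41.BL

section

variable {X : Type} [Fintype X] [DecidableEq X]

/-- Möbius inversion -/
lemma mobius (y : Finset X → ℝ) (S : Finset X) :
    ∑ D : Finset X, (if S ⊆ D then cond y D Dᶜ ∅ else 0) = y S := by
  have h1 : ∀ D : Finset X, (if S ⊆ D then cond y D Dᶜ ∅ else 0) =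
      ∑ T : Finset X, if S ⊆ D ∧ D ⊆ T then (-1) ^ (T \ D).card * y T else 0 := by
    intro D
    by_cases hD : S ⊆ D
    · rw [if_pos hD]
      unfold cond
      simp only [hD, true_and]
      rw [← Finset.sum_filter]
      refine Finset.sum_nbij' (fun F => D ∪ F) (fun T => T \ D) ?_ ?_ ?_ ?_ ?_
      · intro F _
        simp
      · intro T hT
        rw [Finset.mem_powerset]
        intro x hx
        rw [Finset.mem_sdiff] at hx
        rw [Finset.mem_compl]
        exact hx.2
      · intro F hF
        rw [Finset.mem_powerset] at hF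
        rw [Finset.union_sdiff_left]
        refine Finset.sdiff_eq_self_of_disjoint ?_
        rw [Finset.disjoint_left]
        intro x hx hxD
        exact (Finset.mem_compl.1 (hF hx)) hxD
      · intro T hT
        rw [Finset.mem_filter] at hT
        exact Finset.union_sdiff_of_subset hT.2
      · intro F hF
        rw [Finset.mem_powerset] at hF
        have h2 : (D ∪ F) \ D = F := by
          rw [Finset.union_sdiff_left]
          refine Finset.sdiff_eq_self_of_disjoint ?_
          rw [Finset.disjoint_left]
          intro x hx hxD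
          exact (Finset.mem_compl.1 (hF hx)) hxD
        rw [h2, Finset.union_empty]
    · rw [if_neg hD]
      refine (Finset.sum_eq_zero fun T _ => ?_).symm
      rw [if_neg fun h => hD h.1]
  rw [Finset.sum_congr rfl fun D _ => h1 D, Finset.sum_comm]
  have h2 : ∀ T : Finset X, ∑ D : Finset X,
      (if S ⊆ D ∧ D ⊆ T then (-1) ^ (T \ D).card * y T else 0) = if S = T then y T else 0 := by
    intro T
    by_cases hST : S ⊆ T
    · have h3 : ∑ D : Finset X, (if S ⊆ D ∧ D ⊆ T then (-1 : ℝ) ^ (T \ D).card * y T else 0) =
          (∑ F ∈ (T \ S).powerset, (-1 : ℝ) ^ F.card) * y T := by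
        rw [← Finset.sum_filter, Finset.sum_mul]
        refine Finset.sum_nbij' (fun D => T \ D) (fun F => T \ F) ?_ ?_ ?_ ?_ ?_
        · intro D hD
          rw [Finset.mem_filter] at hD
          rw [Finset.mem_powerset]
          exact Finset.sdiff_subset_sdiff (le_refl T) hD.2.1
        · intro F hF
          rw [Finset.mem_powerset] at hF
          rw [Finset.mem_filter]
          refine ⟨Finset.mem_univ _, ?_, Finset.sdiff_subset⟩
          intro x hx
          rw [Finset.mem_sdiff]
          exact ⟨hST hx, fun h => (Finset.mem_sdiff.1 (hF h)).2 hx⟩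
        · intro D hD
          rw [Finset.mem_filter] at hD
          exact Finset.sdiff_sdiff_eq_self hD.2.2
        · intro F hF
          rw [Finset.mem_powerset] at hF
          exact Finset.sdiff_sdiff_eq_self (hF.trans Finset.sdiff_subset)
        · intro D _
          rfl
      rw [h3]
      have h4 : ∑ F ∈ (T \ S).powerset, (-1 : ℝ) ^ F.card = if T \ S = ∅ then 1 else 0 := by
        have := Finset.sum_powerset_neg_one_pow_card (x := T \ S)
        have h5 := congrArg (fun z : ℤ => (z : ℝ)) this
        push_cast at h5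
        exact h5
      rw [h4]
      by_cases hTS : T ⊆ S
      · have hST' : S = T := Finset.Subset.antisymm hST hTS
        rw [if_pos (Finset.sdiff_eq_empty_iff_subset.2 hTS), if_pos hST', one_mul]
      · rw [if_neg fun h => hTS (Finset.sdiff_eq_empty_iff_subset.1 h), zero_mul, if_neg]
        intro h
        exact hTS (by rw [h])
    · rw [if_neg fun h : S = T => hST (by rw [h])]
      refine Finset.sum_eq_zero fun D _ => ?_
      rw [if_neg fun h => hST (h.1.trans h.2)]
  rw [Finset.sum_congr rfl fun T _ => h2 T, Finset.sum_ite_eq, if_pos (Finset.mem_univ S)]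

end

variable {n d k : ℕ}

/-- the value of a pseudo-code of full level -/
theorem full_level (hk : 2 ^ n ≤ k) {y : Finset (Fin n → Bool) → ℝ} (h : PC n d k y) (M : ℕ)
    (hM : ∀ C : Finset (Fin n → Bool), (∀ x ∈ C, ∀ z ∈ C, x ≠ z → d ≤ hammingDist x z) →
      C.card ≤ M) : ∑ x, y {x} ≤ M := by
  have hcard : ∀ D : Finset (Fin n → Bool), D.card + Dᶜ.card = 2 ^ n := by
    intro D
    rw [Finset.card_add_card_compl, Fintype.card_fun, Fintype.card_bool, Fintype.card_fin]
  have hμ0 : ∀ D : Finset (Fin n → Bool), 0 ≤ cond y D Dᶜ ∅ := fun D =>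
    h.nonneg D Dᶜ (by rw [hcard]; exact hk)
  have hμ1 : ∑ D : Finset (Fin n → Bool), cond y D Dᶜ ∅ = 1 := by
    have h1 := mobius y ∅
    simp only [Finset.empty_subset, if_true] at h1
    rw [h1, h.one]
  have hμc : ∀ D : Finset (Fin n → Bool), cond y D Dᶜ ∅ ≠ 0 → D.card ≤ M := by
    intro D hD
    refine hM D fun x hx z hz hxz => ?_
    by_contra hcon
    push Not at hcon
    apply hD
    unfold cond
    refine Finset.sum_eq_zero fun F _ => ?_
    rw [h.dist _ x (by simp [hx]) z (by simp [hz]) hxz hcon, mul_zero]
  have h2 : ∑ x : Fin n → Bool, y {x} = ∑ D : Finset (Fin n → Bool), D.card * cond y D Dᶜ ∅ := by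
    have h3 : ∀ x : Fin n → Bool, y {x} =
        ∑ D : Finset (Fin n → Bool), (if x ∈ D then cond y D Dᶜ ∅ else 0) := by
      intro x
      rw [← mobius y {x}]
      simp only [Finset.singleton_subset_iff]
    rw [Finset.sum_congr rfl fun x _ => h3 x, Finset.sum_comm]
    refine Finset.sum_congr rfl fun D _ => ?_
    rw [Finset.sum_ite_mem, Finset.univ_inter, Finset.sum_const, nsmul_eq_mul]
  rw [h2]
  calc ∑ D : Finset (Fin n → Bool), D.card * cond y D Dᶜ ∅
      ≤ ∑ D : Finset (Fin n → Bool), M * cond y D Dᶜ ∅ := by
        refine Finset.sum_le_sum fun D _ => ?_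
        by_cases hD : cond y D Dᶜ ∅ = 0
        · rw [hD, mul_zero, mul_zero]
        · exact mul_le_mul_of_nonneg_right (by exact_mod_cast hμc D hD) (hμ0 D)
    _ = M := by rw [← Finset.mul_sum, hμ1, mul_one]

end Pool.Agent.Y570.KP
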