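import Mathlib
import Pool.Agent.Y570.KP.Complete

/-!
Y570/KP (helper570, MP_0430e4_lc): the limits.
-/

set_option autoImplicit false
set_option linter.unusedSectionVars false

open Filter Topology

namespace Pool.Agent.Y570.KP

open Pool.Agent.TH41.BL

/-- the `k`-point bound -/
noncomputable def S1 (k n d : ℕ) : ℝ := sSup {v : ℝ | ∃ y, PC n d k y ∧ v = ∑ x, y {x}}

lemma S1_eq (k n d : ℕ) : S1 k n d = SW n d k (fun _ => 1) := by
  unfold S1 SW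
  simp only [one_mul]

variable {n d k : ℕ}

lemma bdd1 (hk : 1 ≤ k) : BddAbove {v : ℝ | ∃ y, PC n d k y ∧ v = ∑ x, y {x}} := by
  have := bdd_SW (n := n) (d := d) hk (w := fun _ => 1) (fun _ => zero_le_one)
  simpa only [one_mul] using this

lemma ne1 : {v : ℝ | ∃ y, PC n d k y ∧ v = ∑ x, y {x}}.Nonempty :=
  ⟨_, _, pc_code ∅ (by simp), rfl⟩

lemma code_S1 (hk : 1 ≤ k) (C : Finset (Fin n → Bool))
    (hC : ∀ x ∈ C, ∀ y ∈ C, x ≠ y → d ≤ hammingDist x y) : (C.card : ℝ) ≤ S1 k n d := by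
  have h := code_le (n := n) (d := d) hk C hC (w := fun _ => 1) (fun _ => zero_le_one)
  rw [S1_eq]
  simpa using h

lemma S1_anti {k' : ℕ} (hk : 1 ≤ k) (hkk : k ≤ k') : S1 k' n d ≤ S1 k n d := by
  refine csSup_le ne1 ?_
  rintro v ⟨y, hy, rfl⟩
  exact le_csSup (bdd1 hk) ⟨y, hy.mono hkk, rfl⟩

lemma S1_le_lp (hc : S7_chr) (hk : 2 ≤ k) {l : ℕ → ℝ} (hl : Feas n d l) :
    S1 k n d ≤ Vl n l / l 0 := by
  refine csSup_le ne1 ?_
  rintro v ⟨y, hy, rfl⟩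
  exact hy.le_lp hc hk hl

lemma S1_weight (hk : 1 ≤ k) {w : (Fin n → Bool) → ℝ} (hw : ∀ x, 0 ≤ w x) :
    S1 k n d * ∑ x, w x ≤ 2 ^ n * SW n d k w := by
  have hw0 : 0 ≤ ∑ x, w x := Finset.sum_nonneg fun x _ => hw x
  rcases hw0.eq_or_lt with h0 | h0
  · rw [← h0, mul_zero]
    have h1 := weight hk hw (pc_code (n := n) (d := d) (k := k) ∅ (by simp))
    rw [← h0, mul_zero] at h1
    exact h1
  · rw [← le_div_iff₀ h0]
    refine csSup_le ne1 ?_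
    rintro v ⟨y, hy, rfl⟩
    rw [le_div_iff₀ h0]
    exact weight hk hw hy

lemma S1_full (hk : 2 ^ n ≤ k) (M : ℕ)
    (hM : ∀ C : Finset (Fin n → Bool), (∀ x ∈ C, ∀ z ∈ C, x ≠ z → d ≤ hammingDist x z) →
      C.card ≤ M) : S1 k n d ≤ M := by
  refine csSup_le ne1 ?_
  rintro v ⟨y, hy, rfl⟩
  exact full_level hk hy M hM

theorem S1_lower (hk : 1 ≤ k) {δ θ : ℝ} (h : Ke δ (θ * Real.log 2)) (hδ : 0 < δ) (ε : ℝ)
    (hε : 0 < ε) : ∀ᶠ n : ℕ in atTop, (2 : ℝ) ^ ((θ - ε) * n) ≤ S1 k n ⌈δ * n⌉₊ := by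
  have hlog : 0 < Real.log 2 := Real.log_pos (by norm_num)
  obtain ⟨n₀, hn₀⟩ := lower hk h (ε * Real.log 2) (by positivity)
  filter_upwards [eventually_ge_atTop (max n₀ 1)] with n hn
  have hn0 : n₀ ≤ n := le_trans (le_max_left _ _) hn
  have hn1 : 1 ≤ n := le_trans (le_max_right _ _) hn
  have hnR : (0 : ℝ) < n := by exact_mod_cast hn1
  have hd : ((⌈δ * n⌉₊ : ℕ) : ℝ) ≤ δ * n + 1 := (Nat.ceil_lt_add_one (by positivity)).le
  have hd1 : 1 ≤ ⌈δ * n⌉₊ := Nat.one_le_ceil_iff.2 (by positivity)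
  have h1 := hn₀ n hn0 _ hd1 hd (fun _ => 1) (fun _ => zero_le_one)
  have h2 : ∑ _u : Fin n → Bool, (1 : ℝ) = 2 ^ n := by
    rw [Finset.sum_const, Finset.card_univ, Fintype.card_fun, Fintype.card_bool, Fintype.card_fin,
      nsmul_eq_mul]
    push_cast
    ring
  rw [h2, ← S1_eq, mul_comm] at h1
  have h3 := le_of_mul_le_mul_left h1 (by positivity : (0 : ℝ) < 2 ^ n)
  refine le_trans (le_of_eq ?_) h3
  rw [Real.rpow_def_of_pos two_pos]
  congr 1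
  ring

theorem S1_upper (hc : S7_chr) (hk : 2 ≤ k) {δ θ : ℝ} (h : UB δ θ) (ε : ℝ)
    (hε : 0 < ε) : ∀ᶠ n : ℕ in atTop, S1 k n ⌈δ * n⌉₊ ≤ (2 : ℝ) ^ ((θ + ε) * n) := by
  obtain ⟨n₀, hn₀⟩ := h ε hε
  filter_upwards [eventually_ge_atTop n₀] with n hn
  obtain ⟨l, hl, hv⟩ := hn₀ n hn ⌈δ * n⌉₊ (Nat.le_ceil _)
  exact (S1_le_lp hc hk hl).trans (by rwa [div_le_iff₀ hl.2.1])

theorem S1_limit (hc : S7_chr) (hk : 2 ≤ k) {δ θ : ℝ} (hδ : 0 < δ) (hlow : Ke δ (θ * Real.log 2))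
    (hup : UB δ θ) :
    Tendsto (fun n : ℕ => Real.logb 2 (S1 k n ⌈δ * n⌉₊) / n) atTop (𝓝 θ) :=
  FINf.tendsto_of (fun ε hε => S1_lower (by omega) hlow hδ ε hε)
    (fun ε hε => S1_upper hc hk hup ε hε)

/-- levels which grow slowly -/
theorem S1_slow (hc : S7_chr) {δ θ : ℝ} (hδ : 0 < δ) (hlow : Ke δ (θ * Real.log 2))
    (hup : UB δ θ) : ∃ k : ℕ → ℕ, Tendsto k atTop atTop ∧ (∀ n, 2 ≤ k n) ∧
    Tendsto (fun n : ℕ => Real.logb 2 (S1 (k n) n ⌈δ * n⌉₊) / n) atTop (𝓝 θ) := by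
  have h1 : ∀ j : ℕ, ∃ N : ℕ, ∀ n, N ≤ n →
      (2 : ℝ) ^ ((θ - 1 / ((j : ℝ) + 1)) * n) ≤ S1 (j + 2) n ⌈δ * n⌉₊ := by
    intro j
    exact eventually_atTop.1 (S1_lower (by omega) hlow hδ _ (by positivity))
  choose N hN using h1
  obtain ⟨M, hM⟩ : ∃ M : ℕ → ℕ, M = fun j => j + ∑ i ∈ Finset.range (j + 1), N i := ⟨_, rfl⟩
  have hMN : ∀ j, N j ≤ M j := by
    intro j
    rw [hM]
    have : N j ≤ ∑ i ∈ Finset.range (j + 1), N i :=
      Finset.single_le_sum (fun _ _ => Nat.zero_le _) (Finset.mem_range.2 (by omega))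
    exact this.trans (Nat.le_add_left _ _)
  have hMmono : Monotone M := by
    intro a b hab
    rw [hM]
    refine add_le_add hab (Finset.sum_le_sum_of_subset ?_)
    intro i hi
    rw [Finset.mem_range] at hi ⊢
    omega
  obtain ⟨kk, hkk⟩ : ∃ kk : ℕ → ℕ, kk = fun n => Nat.findGreatest (fun j => M j ≤ n) n := ⟨_, rfl⟩
  have hkkM : ∀ n, M 0 ≤ n → M (kk n) ≤ n := by
    intro n hn
    rw [hkk]
    exact Nat.findGreatest_spec (P := fun j => M j ≤ n) (Nat.zero_le n) hn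
  have hkkge : ∀ j n, M j ≤ n → j ≤ kk n := by
    intro j n hn
    rw [hkk]
    refine Nat.le_findGreatest ?_ hn
    have : j ≤ M j := by
      rw [hM]
      exact Nat.le_add_right _ _
    exact this.trans hn
  have htend : Tendsto kk atTop atTop :=
    tendsto_atTop.2 fun b => eventually_atTop.2 ⟨M b, fun n hn => hkkge b n hn⟩
  refine ⟨fun n => kk n + 2, tendsto_atTop_mono (fun n => Nat.le_add_right _ 2) htend,
    fun n => Nat.le_add_left 2 _, ?_⟩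
  refine FINf.tendsto_of (fun ε hε => ?_) (fun ε hε => ?_)
  · obtain ⟨b, hb⟩ := exists_nat_gt (1 / ε)
    filter_upwards [eventually_ge_atTop (max (M 0) (M b))] with n hn
    have h0 : M (kk n) ≤ n := hkkM n (le_trans (le_max_left _ _) hn)
    have hb1 : b ≤ kk n := hkkge b n (le_trans (le_max_right _ _) hn)
    refine le_trans ?_ (hN (kk n) n ((hMN _).trans h0))
    refine Real.rpow_le_rpow_of_exponent_le (by norm_num) ?_
    refine mul_le_mul_of_nonneg_right ?_ (Nat.cast_nonneg n)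
    have h2 : 1 / ((kk n : ℝ) + 1) ≤ ε := by
      rw [div_le_iff₀ (by positivity)]
      have h3 : (b : ℝ) ≤ kk n := by exact_mod_cast hb1
      rw [div_lt_iff₀ hε] at hb
      nlinarith
    linarith
  · filter_upwards [S1_upper (k := 2) hc le_rfl hup ε hε] with n hn
    exact (S1_anti (by norm_num) (by omega)).trans hn

end Pool.Agent.Y570.KP
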